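import Pool.Agent.H51.Tfdw.Defs

set_option autoImplicit false

namespace Pool.Agent.H51.Tfdw

variable {γ C p : ℝ}

lemma rho0_pos (hγ : 0 < γ) (hC : 0 < C) (hp : 4 / 3 < p) : 0 < rho0 γ C p := by
  unfold rho0
  have : 0 < p - 1 := by linarith
  have : 0 < p := by linarith
  positivity

lemma alpha_pos (hγ : 0 < γ) (hC : 0 < C) (hp : 4 / 3 < p) : 0 < alpha γ C p := by
  unfold alpha
  have h1 : 0 < p - 1 := by linarith
  have h2 : 0 < 3 * p - 4 := by linarith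
  have h3 := rho0_pos hγ hC hp
  positivity

lemma rho0_rpow (hγ : 0 < γ) (hC : 0 < C) (hp : 4 / 3 < p) :
    γ / p * rho0 γ C p ^ (p - 1) = C / (4 * (p - 1)) * rho0 γ C p ^ (1 / 3 : ℝ) := by
  have h1 : 0 < p - 1 := by linarith
  have h0 : 0 < p := by linarith
  have h3 := rho0_pos hγ hC hp
  have e1 : rho0 γ C p ^ (p - 4 / 3) = C * p / (4 * γ * (p - 1)) := by
    unfold rho0
    rw [← Real.rpow_mul (by positivity), one_div, inv_mul_cancel₀ (by linarith), Real.rpow_one]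
  have e2 : rho0 γ C p ^ (p - 1) = rho0 γ C p ^ (p - 4 / 3) * rho0 γ C p ^ (1 / 3 : ℝ) := by
    rw [← Real.rpow_add h3]; congr 1; ring
  rw [e2, e1]
  field_simp

theorem Jalpha_nonneg (hγ : 0 < γ) (hC : 0 < C) (hp : 4 / 3 < p) {r : ℝ} (hr : 0 ≤ r) :
    0 ≤ Jalpha γ C p r := by
  have h1 : 0 < p - 1 := by linarith
  have h0 : 0 < p := by linarith
  rcases hr.eq_or_lt with rfl | hr0
  · unfold Jalpha Jfun
    rw [Real.zero_rpow (by linarith), Real.zero_rpow (by norm_num)]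
    simp
  have h3 := rho0_pos hγ hC hp
  set q := rho0 γ C p with hq
  set x := r / q with hx
  have hx0 : 0 < x := by positivity
  set w : ℝ := 1 / (3 * (p - 1)) with hw
  have hw0 : 0 ≤ w := by positivity
  have hw1 : w ≤ 1 := by
    rw [hw, div_le_one (by positivity)]; linarith
  have key := Real.geom_mean_le_arith_mean2_weighted (w₁ := 1 - w) (w₂ := w) (p₁ := 1)
    (p₂ := x ^ (p - 1)) (by linarith) hw0 zero_le_one (by positivity) (by ring)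
  rw [Real.one_rpow, one_mul, ← Real.rpow_mul hx0.le] at key
  have e1 : (p - 1) * w = 1 / 3 := by rw [hw]; field_simp
  rw [e1, mul_one] at key
  -- rewrite in terms of `r`
  have e2 : r ^ (1 / 3 : ℝ) = q ^ (1 / 3 : ℝ) * x ^ (1 / 3 : ℝ) := by
    rw [← Real.mul_rpow h3.le hx0.le, hx, mul_div_cancel₀ _ h3.ne']
  have e3 : r ^ (p - 1) = q ^ (p - 1) * x ^ (p - 1) := by
    rw [← Real.mul_rpow h3.le hx0.le, hx, mul_div_cancel₀ _ h3.ne']
  have e4 := rho0_rpow hγ hC hp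
  rw [← hq] at e4
  have e5 : alpha γ C p = 3 * C / 4 * q ^ (1 / 3 : ℝ) * (1 - w) := by
    unfold alpha
    rw [← hq, hw]
    field_simp
    ring
  have e6 : 3 * C / 4 * q ^ (1 / 3 : ℝ) * w = γ / p * q ^ (p - 1) := by
    rw [e4, hw]; field_simp
  have hqp : 0 < q ^ (1 / 3 : ℝ) := by positivity
  have main : 3 * C / 4 * r ^ (1 / 3 : ℝ) ≤ γ / p * r ^ (p - 1) + alpha γ C p := by
    rw [e2, e3, e5]
    calc 3 * C / 4 * (q ^ (1 / 3 : ℝ) * x ^ (1 / 3 : ℝ))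
        = 3 * C / 4 * q ^ (1 / 3 : ℝ) * x ^ (1 / 3 : ℝ) := by ring
      _ ≤ 3 * C / 4 * q ^ (1 / 3 : ℝ) * (1 - w + w * x ^ (p - 1)) := by gcongr
      _ = (3 * C / 4 * q ^ (1 / 3 : ℝ) * w) * x ^ (p - 1) +
          3 * C / 4 * q ^ (1 / 3 : ℝ) * (1 - w) := by ring
      _ = γ / p * (q ^ (p - 1) * x ^ (p - 1)) + 3 * C / 4 * q ^ (1 / 3 : ℝ) * (1 - w) := by
          rw [e6]; ring
  have f1 : r ^ p = r * r ^ (p - 1) := by
    nth_rewrite 2 [← Real.rpow_one r]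
    rw [← Real.rpow_add hr0]; congr 1; ring
  have f2 : r ^ (4 / 3 : ℝ) = r * r ^ (1 / 3 : ℝ) := by
    nth_rewrite 2 [← Real.rpow_one r]
    rw [← Real.rpow_add hr0]; congr 1; norm_num
  unfold Jalpha Jfun
  rw [f1, f2]
  nlinarith

lemma Jalpha_ge (hγ : 0 < γ) (hp : 4 / 3 < p) {r : ℝ} (hr : 0 ≤ r) :
    alpha γ C p * r - 3 * C / 4 * r ^ (4 / 3 : ℝ) ≤ Jalpha γ C p r := by
  unfold Jalpha Jfun
  have h0 : 0 < p := by linarith
  have : 0 ≤ γ / p * r ^ p := by positivity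
  linarith

/-- For every `θ ∈ [0,1]` one has `J_α(r) ≥ θ (α r - (3C/4) r^{4/3})`. -/
lemma Jalpha_ge_theta (hγ : 0 < γ) (hC : 0 < C) (hp : 4 / 3 < p) {r θ : ℝ} (hr : 0 ≤ r)
    (hθ0 : 0 ≤ θ) (hθ1 : θ ≤ 1) :
    θ * (alpha γ C p * r - 3 * C / 4 * r ^ (4 / 3 : ℝ)) ≤ Jalpha γ C p r := by
  have h1 := Jalpha_nonneg hγ hC hp hr
  have h2 := Jalpha_ge (C := C) hγ hp hr
  nlinarith

lemma rpow_four_thirds_le (hp : 4 / 3 < p) {r : ℝ} (hr : 0 ≤ r) :
    r ^ (4 / 3 : ℝ) ≤ r + r ^ p := by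
  rcases hr.eq_or_lt with rfl | hr0
  · rw [Real.zero_rpow (by norm_num), Real.zero_rpow (by linarith)]; simp
  rcases le_total r 1 with h | h
  · have : r ^ (4 / 3 : ℝ) ≤ r ^ (1 : ℝ) := Real.rpow_le_rpow_of_exponent_ge hr0 h (by norm_num)
    rw [Real.rpow_one] at this
    have : 0 ≤ r ^ p := by positivity
    linarith
  · have : r ^ (4 / 3 : ℝ) ≤ r ^ p := Real.rpow_le_rpow_of_exponent_le h hp.le
    linarith

end Pool.Agent.H51.Tfdw
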