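import Pool.Agent.H51.Tfdw.Near
import Pool.Agent.H51.Tfdw.JLemmas

set_option autoImplicit false

open MeasureTheory Filter Topology Metric
open scoped ENNReal NNReal

namespace Pool.Agent.H51.Tfdw

section Adm

variable {γ C p : ℝ} {ψ : E3 → ℝ} {G : E3 → E3}

lemma Admissible.locInt (h : Admissible p ψ G) : LocallyIntegrable ψ :=
  h.2.1.locallyIntegrable (by norm_num)

lemma Admissible.locIntG (h : Admissible p ψ G) : LocallyIntegrable G :=
  h.2.2.2.1.locallyIntegrable (by norm_num)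

lemma Admissible.weak (h : Admissible p ψ G) : IsWeakGradient ψ G := h.2.2.2.2

lemma Admissible.intG (h : Admissible p ψ G) : Integrable (fun x => ‖G x‖ ^ 2) :=
  (memLp_two_iff_integrable_sq_norm h.2.2.2.1.1).1 h.2.2.2.1

lemma Admissible.intSq (h : Admissible p ψ G) : Integrable (fun x => ψ x ^ 2) :=
  (memLp_two_iff_integrable_sq h.2.1.1).1 h.2.1

lemma Admissible.lintG (h : Admissible p ψ G) :
    ∫⁻ x, ‖G x‖ₑ ^ 2 = ENNReal.ofReal (∫ x, ‖G x‖ ^ 2) := by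
  rw [ofReal_integral_eq_lintegral_ofReal h.intG (Eventually.of_forall fun x => by positivity)]
  refine lintegral_congr fun x => ?_
  rw [ENNReal.ofReal_pow (norm_nonneg _), ofReal_norm]

lemma Admissible.lintSq (h : Admissible p ψ G) :
    ∫⁻ x, ‖ψ x‖ₑ ^ 2 = ENNReal.ofReal (∫ x, ψ x ^ 2) := by
  rw [ofReal_integral_eq_lintegral_ofReal h.intSq (Eventually.of_forall fun x => by positivity)]
  refine lintegral_congr fun x => ?_
  rw [← ofReal_norm, ← ENNReal.ofReal_pow (norm_nonneg _), Real.norm_eq_abs, sq_abs]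

lemma Admissible.intPow (hp : 4 / 3 < p) (h : Admissible p ψ G) :
    Integrable (fun x => (ψ x ^ 2) ^ p) := by
  have h1 := h.2.2.1.integrable_norm_rpow (by
    rw [ne_eq, ENNReal.ofReal_eq_zero, not_le]; linarith) ENNReal.ofReal_ne_top
  refine h1.congr (Eventually.of_forall fun x => ?_)
  simp only
  rw [ENNReal.toReal_ofReal (by linarith), Real.norm_of_nonneg (h.1 x), ← Real.rpow_natCast,
    ← Real.rpow_mul (h.1 x)]
  norm_num

lemma Admissible.intQ (hp : 4 / 3 < p) (h : Admissible p ψ G) :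
    Integrable (fun x => (ψ x ^ 2) ^ (4 / 3 : ℝ)) := by
  refine (h.intSq.add (h.intPow hp)).mono' ?_ (Eventually.of_forall fun x => ?_)
  · exact ((h.2.1.1.aemeasurable.pow_const 2).pow_const _).aestronglyMeasurable
  · rw [Real.norm_of_nonneg (by positivity)]
    exact rpow_four_thirds_le hp (by positivity)

lemma Admissible.lintQ (hp : 4 / 3 < p) (h : Admissible p ψ G) :
    ∫⁻ x, ‖ψ x‖ₑ ^ (8 / 3 : ℝ) = ENNReal.ofReal (∫ x, (ψ x ^ 2) ^ (4 / 3 : ℝ)) := by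
  rw [ofReal_integral_eq_lintegral_ofReal (h.intQ hp)
    (Eventually.of_forall fun x => by positivity)]
  refine lintegral_congr fun x => ?_
  have h0 := h.1 x
  rw [← ofReal_norm, ENNReal.ofReal_rpow_of_nonneg (norm_nonneg _) (by norm_num),
    Real.norm_of_nonneg h0, ← Real.rpow_natCast, ← Real.rpow_mul h0]
  norm_num

lemma Admissible.intJ (hp : 4 / 3 < p) (h : Admissible p ψ G) :
    Integrable (fun x => Jalpha γ C p (ψ x ^ 2)) := by
  unfold Jalpha Jfun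
  exact (((h.intPow hp).const_mul _).sub ((h.intQ hp).const_mul _)).add (h.intSq.const_mul _)

/-- The attraction is finite at every point. -/
lemma Admissible.attr_lt_top (h : Admissible p ψ G) (a : E3) :
    ∫⁻ x, ‖ψ x‖ₑ ^ 2 * ker (x - a) < ∞ := by
  obtain ⟨C, hC⟩ := attraction_bound
  refine (hC ψ G h.locInt h.locIntG h.weak a).trans_lt ?_
  rw [h.lintG, h.lintSq]
  exact ENNReal.mul_lt_top (by simp) (by simp)

lemma sq_div_eq (ψ : E3 → ℝ) (x a : E3) :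
    ENNReal.ofReal (ψ x ^ 2 / ‖x - a‖) = ‖ψ x‖ₑ ^ 2 * ker (x - a) := by
  unfold ker
  rw [div_eq_mul_inv, ENNReal.ofReal_mul (by positivity), ← ofReal_norm,
    ← ENNReal.ofReal_pow (norm_nonneg _), Real.norm_eq_abs, sq_abs]

lemma Admissible.intAttr (h : Admissible p ψ G) (a : E3) :
    Integrable (fun x => ψ x ^ 2 / ‖x - a‖) := by
  refine ⟨?_, ?_⟩
  · exact ((h.2.1.1.aemeasurable.pow_const 2).div
      ((measurable_id.sub measurable_const).norm.aemeasurable)).aestronglyMeasurable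
  · rw [hasFiniteIntegral_iff_ofReal (Eventually.of_forall fun x => by positivity)]
    simp_rw [sq_div_eq]
    exact h.attr_lt_top a

lemma Admissible.integral_attr (h : Admissible p ψ G) (a : E3) :
    ENNReal.ofReal (∫ x, ψ x ^ 2 / ‖x - a‖) = ∫⁻ x, ‖ψ x‖ₑ ^ 2 * ker (x - a) := by
  rw [ofReal_integral_eq_lintegral_ofReal (h.intAttr a)
    (Eventually.of_forall fun x => by positivity)]
  simp_rw [sq_div_eq]

lemma ker_neg_sub (x y : E3) : ker (x - y) = ker (y - x) := by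
  unfold ker; rw [norm_sub_rev]

/-- The inner integral of the Coulomb energy. -/
lemma Admissible.inner_coulomb (h : Admissible p ψ G) (x : E3) :
    ENNReal.ofReal (∫ y, ψ x ^ 2 * ψ y ^ 2 / ‖x - y‖) =
      ‖ψ x‖ₑ ^ 2 * ∫⁻ y, ‖ψ y‖ₑ ^ 2 * ker (y - x) := by
  have e : ∀ y, ψ x ^ 2 * ψ y ^ 2 / ‖x - y‖ = ψ x ^ 2 * (ψ y ^ 2 / ‖y - x‖) := by
    intro y; rw [norm_sub_rev, mul_div_assoc]
  simp_rw [e]
  rw [integral_const_mul, ENNReal.ofReal_mul (by positivity), h.integral_attr, ← ofReal_norm,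
    ← ENNReal.ofReal_pow (norm_nonneg _), Real.norm_eq_abs, sq_abs]

lemma coulInf_eq (ψ : E3 → ℝ) :
    coulInf (fun x => ‖ψ x‖ₑ ^ 2) = ∫⁻ x, ‖ψ x‖ₑ ^ 2 * ∫⁻ y, ‖ψ y‖ₑ ^ 2 * ker (y - x) := by
  unfold coulInf
  refine lintegral_congr fun x => ?_
  rw [← lintegral_const_mul' _ _ (by simp)]
  refine lintegral_congr fun y => ?_
  rw [mul_assoc, ← ker_neg_sub x y]
  rfl

lemma Admissible.coulInf_lt_top (h : Admissible p ψ G) :
    coulInf (fun x => ‖ψ x‖ₑ ^ 2) < ∞ := by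
  obtain ⟨C, hC⟩ := attraction_bound
  rw [coulInf_eq]
  have h1 : ∀ x, ‖ψ x‖ₑ ^ 2 * (∫⁻ y, ‖ψ y‖ₑ ^ 2 * ker (y - x)) ≤
      ‖ψ x‖ₑ ^ 2 * (C * ((∫⁻ x, ‖G x‖ₑ ^ 2) + ∫⁻ x, ‖ψ x‖ₑ ^ 2)) := by
    intro x
    gcongr
    exact hC ψ G h.locInt h.locIntG h.weak x
  refine (lintegral_mono h1).trans_lt ?_
  have hne : (C : ℝ≥0∞) * ((∫⁻ x, ‖G x‖ₑ ^ 2) + ∫⁻ x, ‖ψ x‖ₑ ^ 2) ≠ ∞ := by
    rw [h.lintG, h.lintSq]
    exact ENNReal.mul_ne_top (by simp) (by simp)
  rw [lintegral_mul_const' _ _ hne]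
  refine ENNReal.mul_lt_top ?_ hne.lt_top
  rw [h.lintSq]
  exact ENNReal.ofReal_lt_top

/-- The outer function of the Coulomb energy. -/
lemma Admissible.coulomb_outer (h : Admissible p ψ G) :
    AEStronglyMeasurable (fun x => ∫ y, ψ x ^ 2 * ψ y ^ 2 / ‖x - y‖) := by
  have hm : AEStronglyMeasurable (fun z : E3 × E3 => ψ z.1 ^ 2 * ψ z.2 ^ 2 / ‖z.1 - z.2‖)
      (volume.prod volume) := by
    have m1 : AEMeasurable (fun z : E3 × E3 => ψ z.1 ^ 2) (volume.prod volume) :=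
      (h.2.1.1.aemeasurable.comp_fst).pow_const 2
    have m2 : AEMeasurable (fun z : E3 × E3 => ψ z.2 ^ 2) (volume.prod volume) :=
      (h.2.1.1.aemeasurable.comp_snd).pow_const 2
    have m3 : Measurable (fun z : E3 × E3 => ‖z.1 - z.2‖) :=
      (measurable_fst.sub measurable_snd).norm
    exact ((m1.mul m2).div m3.aemeasurable).aestronglyMeasurable
  exact hm.integral_prod_right'

lemma Admissible.coulomb_eq (h : Admissible p ψ G) :
    ENNReal.ofReal (2 * coulomb (fun x => ψ x ^ 2) (fun x => ψ x ^ 2)) =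
      coulInf (fun x => ‖ψ x‖ₑ ^ 2) := by
  have hnn : ∀ x, 0 ≤ ∫ y, ψ x ^ 2 * ψ y ^ 2 / ‖x - y‖ := fun x =>
    integral_nonneg fun y => by positivity
  have e1 : ∫⁻ x, ENNReal.ofReal (∫ y, ψ x ^ 2 * ψ y ^ 2 / ‖x - y‖) =
      coulInf (fun x => ‖ψ x‖ₑ ^ 2) := by
    rw [coulInf_eq]
    exact lintegral_congr fun x => h.inner_coulomb x
  have hint : Integrable (fun x => ∫ y, ψ x ^ 2 * ψ y ^ 2 / ‖x - y‖) := by
    refine ⟨h.coulomb_outer, ?_⟩
    rw [hasFiniteIntegral_iff_ofReal (Eventually.of_forall hnn), e1]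
    exact h.coulInf_lt_top
  unfold coulomb
  rw [← e1, ← ofReal_integral_eq_lintegral_ofReal hint (Eventually.of_forall hnn)]
  congr 1
  ring

lemma coulomb_nonneg (ψ : E3 → ℝ) : 0 ≤ coulomb (fun x => ψ x ^ 2) (fun x => ψ x ^ 2) := by
  unfold coulomb
  have : 0 ≤ ∫ x, ∫ y, ψ x ^ 2 * ψ y ^ 2 / ‖x - y‖ :=
    integral_nonneg fun x => integral_nonneg fun y => by positivity
  positivity

end Adm

/-- The key inequality in real form. -/
theorem key_real {p ε : ℝ} (hp : 4 / 3 < p) (hε : 0 < ε) : ∃ C : ℝ, 0 ≤ C ∧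
    ∀ (ψ : E3 → ℝ) (G : E3 → E3), Admissible p ψ G →
    ∫ x, (ψ x ^ 2) ^ (4 / 3 : ℝ) ≤ ε * ((∫ x, ‖G x‖ ^ 2) + ∫ x, ψ x ^ 2) +
      C * coulomb (fun x => ψ x ^ 2) (fun x => ψ x ^ 2) := by
  lift ε to ℝ≥0 using hε.le
  obtain ⟨C, hC⟩ := key_inequality (ε := ε) (by exact_mod_cast hε)
  refine ⟨2 * C, by positivity, fun ψ G h => ?_⟩
  have h1 := hC ψ G h.locInt h.locIntG h.weak
  have hK : 0 ≤ ∫ x, ‖G x‖ ^ 2 := integral_nonneg fun x => by positivity
  have hm : 0 ≤ ∫ x, ψ x ^ 2 := integral_nonneg fun x => by positivity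
  have hD := coulomb_nonneg ψ
  rw [h.lintQ hp, h.lintG, h.lintSq, ← h.coulomb_eq, ← ENNReal.ofReal_add hK hm,
    ← ENNReal.ofReal_coe_nnreal (p := ε), ← ENNReal.ofReal_coe_nnreal (p := C),
    ← ENNReal.ofReal_mul (by positivity), ← ENNReal.ofReal_mul (by positivity),
    ← ENNReal.ofReal_add (by positivity) (by positivity),
    ENNReal.ofReal_le_ofReal_iff (by positivity)] at h1
  linarith

/-- The attraction by one nucleus, real form. -/
theorem attraction_real : ∃ C : ℝ, 0 ≤ C ∧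
    ∀ (p : ℝ) (ψ : E3 → ℝ) (G : E3 → E3), Admissible p ψ G → ∀ a : E3,
    ∫ x, ψ x ^ 2 / ‖x - a‖ ≤ C * ((∫ x, ‖G x‖ ^ 2) + ∫ x, ψ x ^ 2) := by
  obtain ⟨C, hC⟩ := attraction_bound
  refine ⟨C, C.2, fun p ψ G h a => ?_⟩
  have h1 := hC ψ G h.locInt h.locIntG h.weak a
  have hK : 0 ≤ ∫ x, ‖G x‖ ^ 2 := integral_nonneg fun x => by positivity
  have hm : 0 ≤ ∫ x, ψ x ^ 2 := integral_nonneg fun x => by positivity
  rw [← h.integral_attr, h.lintG, h.lintSq, ← ENNReal.ofReal_add hK hm,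
    ← ENNReal.ofReal_coe_nnreal (p := C), ← ENNReal.ofReal_mul (by positivity),
    ENNReal.ofReal_le_ofReal_iff (by positivity)] at h1
  exact h1

/-- The potential energy is the sum of the attractions. -/
lemma potential_eq {p : ℝ} {ψ : E3 → ℝ} {G : E3 → E3} (h : Admissible p ψ G) {k : ℕ}
    (z : Fin k → ℝ) (R : Fin k → E3) :
    ∫ x, nuclearPotential z R x * ψ x ^ 2 = ∑ j, z j * ∫ x, ψ x ^ 2 / ‖x - R j‖ := by
  unfold nuclearPotential
  have e : ∀ x, (∑ j, z j / ‖x - R j‖) * ψ x ^ 2 = ∑ j, z j * (ψ x ^ 2 / ‖x - R j‖) := by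
    intro x
    rw [Finset.sum_mul]
    refine Finset.sum_congr rfl fun j _ => ?_
    ring
  simp_rw [e]
  rw [integral_finsetSum _ fun j _ => (h.intAttr (R j)).const_mul _]
  simp_rw [integral_const_mul]

/-- **Coercivity** of the energy without the nuclei. -/
theorem coercivity {A γ C p : ℝ} (hA : 0 < A) (hγ : 0 < γ) (hC : 0 < C) (hp : 4 / 3 < p) :
    ∃ c : ℝ, 0 < c ∧ ∀ (ψ : E3 → ℝ) (G : E3 → E3), Admissible p ψ G →
    c * (∫ x, ψ x ^ 2) + A / 2 * (∫ x, ‖G x‖ ^ 2) +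
        1 / 2 * coulomb (fun x => ψ x ^ 2) (fun x => ψ x ^ 2) ≤
      A * (∫ x, ‖G x‖ ^ 2) + (∫ x, Jalpha γ C p (ψ x ^ 2)) +
        coulomb (fun x => ψ x ^ 2) (fun x => ψ x ^ 2) := by
  have hα := alpha_pos hγ hC hp
  set α := alpha γ C p with hαd
  set ε : ℝ := α / (2 * (3 * C / 4)) with hε
  have hε0 : 0 < ε := by positivity
  obtain ⟨C', hC'0, hC'⟩ := key_real hp hε0
  set θ : ℝ := min 1 (min (A / 2 / (α / 2)) (1 / 2 / (3 * C / 4 * C' + 1))) with hθ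
  have hθ0 : 0 < θ := by positivity
  have hθ1 : θ ≤ 1 := min_le_left _ _
  have hθ2 : θ * (α / 2) ≤ A / 2 := by
    have : θ ≤ A / 2 / (α / 2) := (min_le_right _ _).trans (min_le_left _ _)
    calc θ * (α / 2) ≤ A / 2 / (α / 2) * (α / 2) := by gcongr
      _ = A / 2 := by field_simp
  have hθ3 : θ * (3 * C / 4 * C') ≤ 1 / 2 := by
    have h1 : θ ≤ 1 / 2 / (3 * C / 4 * C' + 1) := (min_le_right _ _).trans (min_le_right _ _)
    have h2 : 0 < 3 * C / 4 * C' + 1 := by positivity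
    rw [le_div_iff₀ h2] at h1
    nlinarith
  refine ⟨θ * (α / 2), by positivity, fun ψ G h => ?_⟩
  have hK : 0 ≤ ∫ x, ‖G x‖ ^ 2 := integral_nonneg fun x => by positivity
  have hm : 0 ≤ ∫ x, ψ x ^ 2 := integral_nonneg fun x => by positivity
  have hD := coulomb_nonneg ψ
  have h1 := hC' ψ G h
  have h2 : θ * (α * (∫ x, ψ x ^ 2) - 3 * C / 4 * ∫ x, (ψ x ^ 2) ^ (4 / 3 : ℝ)) ≤
      ∫ x, Jalpha γ C p (ψ x ^ 2) := by
    rw [← integral_const_mul, ← integral_const_mul, ← integral_sub (h.intSq.const_mul _)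
      ((h.intQ hp).const_mul _), ← integral_const_mul]
    refine integral_mono (((h.intSq.const_mul _).sub ((h.intQ hp).const_mul _)).const_mul _)
      (h.intJ hp) fun x => ?_
    exact Jalpha_ge_theta hγ hC hp (by positivity) hθ0.le hθ1
  set K := ∫ x, ‖G x‖ ^ 2
  set m := ∫ x, ψ x ^ 2
  set Q := ∫ x, (ψ x ^ 2) ^ (4 / 3 : ℝ)
  set D := coulomb (fun x => ψ x ^ 2) (fun x => ψ x ^ 2)
  set J := ∫ x, Jalpha γ C p (ψ x ^ 2)
  have h3 : 3 * C / 4 * ε = α / 2 := by rw [hε]; field_simp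
  have h4 : 3 * C / 4 * Q ≤ α / 2 * (K + m) + 3 * C / 4 * C' * D := by
    calc 3 * C / 4 * Q ≤ 3 * C / 4 * (ε * (K + m) + C' * D) := by gcongr
      _ = (3 * C / 4 * ε) * (K + m) + 3 * C / 4 * C' * D := by ring
      _ = _ := by rw [h3]
  have h5 : θ * (α / 2) * m - θ * (α / 2) * K - θ * (3 * C / 4 * C') * D ≤ J := by
    have := mul_le_mul_of_nonneg_left h4 hθ0.le
    nlinarith
  nlinarith [mul_le_mul_of_nonneg_right hθ2 hK, mul_le_mul_of_nonneg_right hθ3 hD]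

end Pool.Agent.H51.Tfdw
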