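import Mathlib

set_option autoImplicit false

open MeasureTheory
open scoped ContDiff ENNReal

namespace Pool.Agent.H51.Tfdw

/-- Three-dimensional Euclidean space. -/
abbrev E3 : Type := EuclideanSpace ℝ (Fin 3)

/-- `G` is the weak (distributional) gradient of `ψ`. -/
def IsWeakGradient (ψ : E3 → ℝ) (G : E3 → E3) : Prop :=
  ∀ φ : E3 → ℝ, ContDiff ℝ ∞ φ → HasCompactSupport φ → ∀ v : E3,
    ∫ x, ψ x * fderiv ℝ φ x v = - ∫ x, inner ℝ (G x) v * φ x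

/-- `ψ` is the (nonnegative) square root of an admissible density and `G` is its gradient:
`ψ ∈ L² ∩ L^{2p}`, `G = ∇ψ ∈ L²`. -/
def Admissible (p : ℝ) (ψ : E3 → ℝ) (G : E3 → E3) : Prop :=
  (∀ x, 0 ≤ ψ x) ∧ MemLp ψ 2 ∧ MemLp ψ (ENNReal.ofReal (2 * p)) ∧ MemLp G 2 ∧
    IsWeakGradient ψ G

/-- The number `ρ₀` with `ρ₀ ^ (p - 4/3) = C p / (4 γ (p - 1))`. -/
noncomputable def rho0 (γ C p : ℝ) : ℝ := (C * p / (4 * γ * (p - 1))) ^ (1 / (p - 4 / 3))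

/-- The number `α = (3p - 4) / (4 (p - 1)) ρ₀^{1/3} C`. -/
noncomputable def alpha (γ C p : ℝ) : ℝ :=
  (3 * p - 4) / (4 * (p - 1)) * rho0 γ C p ^ (1 / 3 : ℝ) * C

/-- `J(r) = (γ/p) r^p - (3C/4) r^{4/3}`. -/
noncomputable def Jfun (γ C p r : ℝ) : ℝ := γ / p * r ^ p - 3 * C / 4 * r ^ (4 / 3 : ℝ)

/-- `J_α(r) = J(r) + α r`. -/
noncomputable def Jalpha (γ C p r : ℝ) : ℝ := Jfun γ C p r + alpha γ C p * r

/-- The potential `V(x) = ∑ z_j / |x - R_j|` of nuclei of charges `z_j` at `R_j`. -/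
noncomputable def nuclearPotential {k : ℕ} (z : Fin k → ℝ) (R : Fin k → E3) (x : E3) : ℝ :=
  ∑ j, z j / ‖x - R j‖

/-- The repulsion `U = ∑_{i<j} z_i z_j / |R_i - R_j|` of the nuclei. -/
noncomputable def nuclearRepulsion {k : ℕ} (z : Fin k → ℝ) (R : Fin k → E3) : ℝ :=
  ∑ i, ∑ j, if i < j then z i * z j / ‖R i - R j‖ else 0

/-- `D(f,g) = (1/2) ∬ f(x) g(y) / |x - y| dx dy`. -/
noncomputable def coulomb (f g : E3 → ℝ) : ℝ := 1 / 2 * ∫ x, ∫ y, f x * g y / ‖x - y‖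

/-- The energy `𝓔_α(ρ)` of the density `ρ = ψ²`, where `G = ∇ψ`. -/
noncomputable def energy (A γ C p : ℝ) {k : ℕ} (z : Fin k → ℝ) (R : Fin k → E3)
    (ψ : E3 → ℝ) (G : E3 → E3) : ℝ :=
  A * (∫ x, ‖G x‖ ^ 2) + (∫ x, Jalpha γ C p (ψ x ^ 2))
    - (∫ x, nuclearPotential z R x * ψ x ^ 2)
    + coulomb (fun x => ψ x ^ 2) (fun x => ψ x ^ 2) + nuclearRepulsion z R

/-- The energies of the admissible densities with `∫ ρ = lam`. -/
def energies (A γ C p : ℝ) {k : ℕ} (z : Fin k → ℝ) (R : Fin k → E3) (lam : ℝ) : Set ℝ :=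
  {e | ∃ ψ G, Admissible p ψ G ∧ (∫ x, ψ x ^ 2) = lam ∧ e = energy A γ C p z R ψ G}

/-- `E_α(lam)`, the infimum of the energies at particle number `lam`. -/
noncomputable def groundEnergy (A γ C p : ℝ) {k : ℕ} (z : Fin k → ℝ) (R : Fin k → E3)
    (lam : ℝ) : ℝ := sInf (energies A γ C p z R lam)

/-- `lam` is an absolute-minimum point of `E_α` on `[0, ∞)`. -/
def IsAbsMinPoint (A γ C p : ℝ) {k : ℕ} (z : Fin k → ℝ) (R : Fin k → E3) (lam : ℝ) : Prop :=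
  0 ≤ lam ∧ ∀ μ : ℝ, 0 ≤ μ → groundEnergy A γ C p z R lam ≤ groundEnergy A γ C p z R μ

end Pool.Agent.H51.Tfdw
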