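import Pool.Agent.H51.Tfdw.Weak

set_option autoImplicit false

open MeasureTheory Filter Topology Metric
open scoped ENNReal NNReal

namespace Pool.Agent.H51.Tfdw

/-- Coercivity of the full energy. -/
def Coercive (A γ C p : ℝ) {k : ℕ} (z : Fin k → ℝ) (R : Fin k → E3) (μ K₀ : ℝ) : Prop :=
  ∀ (ψ : E3 → ℝ) (G : E3 → E3), Admissible p ψ G →
    nuclearRepulsion z R + μ * ((∫ x, ψ x ^ 2) + (∫ x, ‖G x‖ ^ 2) +
      coulomb (fun x => ψ x ^ 2) (fun x => ψ x ^ 2)) - K₀ ≤ energy A γ C p z R ψ G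

section Scaling

variable {A γ C p : ℝ} {k : ℕ} {z : Fin k → ℝ} {R : Fin k → E3} {ψ : E3 → ℝ} {G : E3 → E3}

lemma Admissible.scale (h : Admissible p ψ G) {s : ℝ} (hs : 0 < s) :
    Admissible p (fun x => Real.sqrt s * ψ x) (fun x => Real.sqrt s • G x) := by
  refine ⟨fun x => mul_nonneg (Real.sqrt_nonneg _) (h.1 x), h.2.1.const_mul _,
    h.2.2.1.const_mul _, by exact h.2.2.2.1.const_smul (Real.sqrt s), ?_⟩
  intro φ hφ hφc v
  have := h.weak φ hφ hφc v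
  simp_rw [inner_smul_left, mul_assoc, integral_const_mul]
  rw [this]
  simp

lemma sq_sqrt_mul {s : ℝ} (hs : 0 < s) (t : ℝ) : (Real.sqrt s * t) ^ 2 = s * t ^ 2 := by
  rw [mul_pow, Real.sq_sqrt hs.le]

lemma coulomb_scale {s : ℝ} (hs : 0 < s) :
    coulomb (fun x => (Real.sqrt s * ψ x) ^ 2) (fun x => (Real.sqrt s * ψ x) ^ 2) =
      s ^ 2 * coulomb (fun x => ψ x ^ 2) (fun x => ψ x ^ 2) := by
  unfold coulomb
  simp_rw [sq_sqrt_mul hs]
  have e : ∀ x y, s * ψ x ^ 2 * (s * ψ y ^ 2) / ‖x - y‖ =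
      s ^ 2 * (ψ x ^ 2 * ψ y ^ 2 / ‖x - y‖) := by
    intro x y; ring
  simp_rw [e, integral_const_mul]
  ring

lemma Jalpha_scale {s : ℝ} (hs : 0 < s) {r : ℝ} (hr : 0 ≤ r) :
    Jalpha γ C p (s * r) = s ^ p * (γ / p * r ^ p) -
      s ^ (4 / 3 : ℝ) * (3 * C / 4 * r ^ (4 / 3 : ℝ)) + s * (alpha γ C p * r) := by
  unfold Jalpha Jfun
  rw [Real.mul_rpow hs.le hr, Real.mul_rpow hs.le hr]
  ring

/-- The energy of the scaled function. -/
lemma energy_scale (hp : 4 / 3 < p) (h : Admissible p ψ G) {s : ℝ} (hs : 0 < s) :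
    energy A γ C p z R (fun x => Real.sqrt s * ψ x) (fun x => Real.sqrt s • G x) =
      s * (A * ∫ x, ‖G x‖ ^ 2) + (s ^ p * (γ / p * ∫ x, (ψ x ^ 2) ^ p) -
      s ^ (4 / 3 : ℝ) * (3 * C / 4 * ∫ x, (ψ x ^ 2) ^ (4 / 3 : ℝ)) +
      s * (alpha γ C p * ∫ x, ψ x ^ 2)) - s * (∫ x, nuclearPotential z R x * ψ x ^ 2) +
      s ^ 2 * coulomb (fun x => ψ x ^ 2) (fun x => ψ x ^ 2) + nuclearRepulsion z R := by
  unfold energy
  rw [coulomb_scale hs]
  have e1 : ∀ x, ‖Real.sqrt s • G x‖ ^ 2 = s * ‖G x‖ ^ 2 := by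
    intro x
    rw [norm_smul, mul_pow, Real.norm_eq_abs, sq_abs, Real.sq_sqrt hs.le]
  have e2 : ∀ x, nuclearPotential z R x * (Real.sqrt s * ψ x) ^ 2 =
      s * (nuclearPotential z R x * ψ x ^ 2) := by
    intro x; rw [sq_sqrt_mul hs]; ring
  simp_rw [e1, e2, sq_sqrt_mul hs, integral_const_mul]
  have e3 : ∫ x, Jalpha γ C p (s * ψ x ^ 2) = s ^ p * (γ / p * ∫ x, (ψ x ^ 2) ^ p) -
      s ^ (4 / 3 : ℝ) * (3 * C / 4 * ∫ x, (ψ x ^ 2) ^ (4 / 3 : ℝ)) +
      s * (alpha γ C p * ∫ x, ψ x ^ 2) := by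
    have e4 : ∀ x, Jalpha γ C p (s * ψ x ^ 2) = s ^ p * (γ / p * (ψ x ^ 2) ^ p) -
      s ^ (4 / 3 : ℝ) * (3 * C / 4 * (ψ x ^ 2) ^ (4 / 3 : ℝ)) + s * (alpha γ C p * ψ x ^ 2) :=
      fun x => Jalpha_scale hs (by positivity)
    simp_rw [e4]
    have i1 : Integrable (fun x => s ^ p * (γ / p * (ψ x ^ 2) ^ p) -
        s ^ (4 / 3 : ℝ) * (3 * C / 4 * (ψ x ^ 2) ^ (4 / 3 : ℝ))) :=
      (((h.intPow hp).const_mul _).const_mul _).sub (((h.intQ hp).const_mul _).const_mul _)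
    rw [integral_add i1 ((h.intSq.const_mul _).const_mul _),
      integral_sub (((h.intPow hp).const_mul _).const_mul _)
      (((h.intQ hp).const_mul _).const_mul _)]
    simp_rw [integral_const_mul]
  rw [e3]
  ring

lemma energy_eq (hp : 4 / 3 < p) (h : Admissible p ψ G) :
    energy A γ C p z R ψ G =
      A * (∫ x, ‖G x‖ ^ 2) + (γ / p * (∫ x, (ψ x ^ 2) ^ p) -
      3 * C / 4 * (∫ x, (ψ x ^ 2) ^ (4 / 3 : ℝ)) +
      alpha γ C p * ∫ x, ψ x ^ 2) - (∫ x, nuclearPotential z R x * ψ x ^ 2) +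
      coulomb (fun x => ψ x ^ 2) (fun x => ψ x ^ 2) + nuclearRepulsion z R := by
  have := energy_scale (A := A) (γ := γ) (C := C) (z := z) (R := R) hp h one_pos
  simpa using this

/-- The error factor of the scaling. -/
noncomputable def err (p s : ℝ) : ℝ :=
  |s - 1| + |s ^ p - 1| + |s ^ (4 / 3 : ℝ) - 1| + |s ^ 2 - 1|

lemma err_tendsto (p : ℝ) : Tendsto (err p) (𝓝 1) (𝓝 0) := by
  have h1 : ContinuousAt (err p) 1 := by
    unfold err
    have c1 : ContinuousAt (fun s : ℝ => s ^ p) 1 :=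
      Real.continuousAt_rpow_const 1 p (Or.inl one_ne_zero)
    have c2 : ContinuousAt (fun s : ℝ => s ^ (4 / 3 : ℝ)) 1 :=
      Real.continuousAt_rpow_const 1 _ (Or.inl one_ne_zero)
    exact ((((continuousAt_id.sub continuousAt_const).abs).add
      ((c1.sub continuousAt_const).abs)).add ((c2.sub continuousAt_const).abs)).add
      (((continuousAt_id.pow 2).sub continuousAt_const).abs)
  have h2 : err p 1 = 0 := by simp [err]
  rw [← h2]
  exact h1

lemma energy_scale_le (hA : 0 < A) (hγ : 0 < γ) (hC : 0 < C) (hp : 4 / 3 < p)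
    (hz : ∀ j, 0 ≤ z j) (h : Admissible p ψ G) {s : ℝ} (hs : 0 < s) :
    energy A γ C p z R (fun x => Real.sqrt s * ψ x) (fun x => Real.sqrt s • G x) ≤
      energy A γ C p z R ψ G + err p s * (A * (∫ x, ‖G x‖ ^ 2) +
      γ / p * (∫ x, (ψ x ^ 2) ^ p) + 3 * C / 4 * (∫ x, (ψ x ^ 2) ^ (4 / 3 : ℝ)) +
      alpha γ C p * (∫ x, ψ x ^ 2) + (∫ x, nuclearPotential z R x * ψ x ^ 2) +
      coulomb (fun x => ψ x ^ 2) (fun x => ψ x ^ 2)) := by
  rw [energy_scale hp h hs, energy_eq hp h]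
  have h0 : 0 < p := by linarith
  have hα := alpha_pos hγ hC hp
  have p1 : 0 ≤ A * ∫ x, ‖G x‖ ^ 2 := mul_nonneg hA.le (integral_nonneg fun x => by positivity)
  have p2 : 0 ≤ γ / p * ∫ x, (ψ x ^ 2) ^ p :=
    mul_nonneg (by positivity) (integral_nonneg fun x => by positivity)
  have p3 : 0 ≤ 3 * C / 4 * ∫ x, (ψ x ^ 2) ^ (4 / 3 : ℝ) :=
    mul_nonneg (by positivity) (integral_nonneg fun x => by positivity)
  have p4 : 0 ≤ alpha γ C p * ∫ x, ψ x ^ 2 :=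
    mul_nonneg hα.le (integral_nonneg fun x => by positivity)
  have p5 : 0 ≤ ∫ x, nuclearPotential z R x * ψ x ^ 2 := by
    refine integral_nonneg fun x => mul_nonneg ?_ (by positivity)
    exact Finset.sum_nonneg fun j _ => div_nonneg (hz j) (norm_nonneg _)
  have p6 := coulomb_nonneg ψ
  set a := A * ∫ x, ‖G x‖ ^ 2
  set b := γ / p * ∫ x, (ψ x ^ 2) ^ p
  set c := 3 * C / 4 * ∫ x, (ψ x ^ 2) ^ (4 / 3 : ℝ)
  set d := alpha γ C p * ∫ x, ψ x ^ 2
  set w := ∫ x, nuclearPotential z R x * ψ x ^ 2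
  set D := coulomb (fun x => ψ x ^ 2) (fun x => ψ x ^ 2)
  have a1 := le_abs_self (s - 1)
  have a1' := neg_abs_le (s - 1)
  have a2 := le_abs_self (s ^ p - 1)
  have a3 := neg_abs_le (s ^ (4 / 3 : ℝ) - 1)
  have a4 := le_abs_self (s ^ 2 - 1)
  have b1 := abs_nonneg (s - 1)
  have b2 := abs_nonneg (s ^ p - 1)
  have b3 := abs_nonneg (s ^ (4 / 3 : ℝ) - 1)
  have b4 := abs_nonneg (s ^ 2 - 1)
  have t1 : (s - 1) * a ≤ err p s * a := by
    apply mul_le_mul_of_nonneg_right _ p1; unfold err; linarith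
  have t2 : (s ^ p - 1) * b ≤ err p s * b := by
    apply mul_le_mul_of_nonneg_right _ p2; unfold err; linarith
  have t3 : -(s ^ (4 / 3 : ℝ) - 1) * c ≤ err p s * c := by
    apply mul_le_mul_of_nonneg_right _ p3; unfold err; linarith
  have t4 : (s - 1) * d ≤ err p s * d := by
    apply mul_le_mul_of_nonneg_right _ p4; unfold err; linarith
  have t5 : -(s - 1) * w ≤ err p s * w := by
    apply mul_le_mul_of_nonneg_right _ p5; unfold err; linarith
  have t6 : (s ^ 2 - 1) * D ≤ err p s * D := by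
    apply mul_le_mul_of_nonneg_right _ p6; unfold err; linarith
  nlinarith

end Scaling

section Existence

variable {A γ C p : ℝ} {k : ℕ} {z : Fin k → ℝ} {R : Fin k → E3}

/-- Lower bound of the energy by the mass. -/
lemma energy_ge_mass (hA : 0 < A) (hγ : 0 < γ) (hC : 0 < C) (hp : 4 / 3 < p)
    (hz : ∀ j, 0 ≤ z j) : ∃ C₂ : ℝ, 0 ≤ C₂ ∧ ∀ (ψ : E3 → ℝ) (G : E3 → E3), Admissible p ψ G →
      nuclearRepulsion z R - C₂ * ∫ x, ψ x ^ 2 ≤ energy A γ C p z R ψ G := by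
  set Z := ∑ j, z j with hZ
  have hZ0 : 0 ≤ Z := Finset.sum_nonneg fun j _ => hz j
  obtain ⟨κ, hκ⟩ : ∃ κ : ℝ≥0, (κ : ℝ) = A / (Z + 1) := ⟨⟨_, by positivity⟩, rfl⟩
  have hκ0 : 0 < (κ : ℝ) := by rw [hκ]; positivity
  obtain ⟨s, hs, -, hnear⟩ := near_bound (κ := κ) (by exact_mod_cast hκ0)
  refine ⟨Z * (κ + s⁻¹), by positivity, fun ψ G h => ?_⟩
  have hK : 0 ≤ ∫ x, ‖G x‖ ^ 2 := integral_nonneg fun x => by positivity
  have hm : 0 ≤ ∫ x, ψ x ^ 2 := integral_nonneg fun x => by positivity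
  have hD := coulomb_nonneg ψ
  have hJ : 0 ≤ ∫ x, Jalpha γ C p (ψ x ^ 2) :=
    integral_nonneg fun x => Jalpha_nonneg hγ hC hp (by positivity)
  have hatt : ∀ a : E3, ∫ x, ψ x ^ 2 / ‖x - a‖ ≤
      κ * ((∫ x, ‖G x‖ ^ 2) + ∫ x, ψ x ^ 2) + s⁻¹ * ∫ x, ψ x ^ 2 := by
    intro a
    have h1 := attraction_le (ψ := ψ) hs a
    have h2 := (hnear ψ G h.locInt h.locIntG h.weak a).trans
      (mul_le_mul_right (locN_le (ψ := ψ) h.locIntG a) _)
    have h3 := h1.trans (add_le_add_left h2 _)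
    rw [← h.integral_attr, h.lintG, h.lintSq, ← ENNReal.ofReal_add hK hm,
      ← ENNReal.ofReal_coe_nnreal (p := κ), ← ENNReal.ofReal_mul (by positivity),
      ← ENNReal.ofReal_mul (by positivity), ← ENNReal.ofReal_add (by positivity) (by positivity),
      ENNReal.ofReal_le_ofReal_iff (by positivity)] at h3
    exact h3
  have hW : ∫ x, nuclearPotential z R x * ψ x ^ 2 ≤
      Z * (κ * ((∫ x, ‖G x‖ ^ 2) + ∫ x, ψ x ^ 2) + s⁻¹ * ∫ x, ψ x ^ 2) := by
    rw [potential_eq h, hZ, Finset.sum_mul]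
    exact Finset.sum_le_sum fun j _ => mul_le_mul_of_nonneg_left (hatt (R j)) (hz j)
  have e1 : Z * κ ≤ A := by
    rw [hκ, ← mul_div_assoc, div_le_iff₀ (by positivity)]
    nlinarith
  have e2 := mul_le_mul_of_nonneg_right e1 hK
  unfold energy
  nlinarith

lemma zero_admissible (p : ℝ) : Admissible p (fun _ : E3 => (0 : ℝ)) (fun _ => 0) := by
  refine ⟨fun _ => le_rfl, MemLp.zero, MemLp.zero, MemLp.zero, ?_⟩
  intro φ _ _ v
  simp

lemma energy_zero (hp : 4 / 3 < p) :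
    energy A γ C p z R (fun _ : E3 => (0 : ℝ)) (fun _ => 0) = nuclearRepulsion z R := by
  unfold energy Jalpha Jfun coulomb
  have : (0 : ℝ) ^ p = 0 := Real.zero_rpow (by linarith)
  simp [this]

/-- **Existence of absolute-minimum points.** -/
theorem exists_absMin (hA : 0 < A) (hγ : 0 < γ) (hC : 0 < C) (hp : 4 / 3 < p)
    (hz : ∀ j, 0 ≤ z j) {μ K₀ : ℝ} (hμ : 0 < μ) (hco : Coercive A γ C p z R μ K₀) :
    ∃ lam, IsAbsMinPoint A γ C p z R lam := by
  classical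
  set U := nuclearRepulsion z R with hU
  set 𝓔 : Set ℝ := {e | ∃ ψ G, Admissible p ψ G ∧ e = energy A γ C p z R ψ G} with h𝓔
  have hlow : ∀ e ∈ 𝓔, U - K₀ ≤ e := by
    rintro e ⟨ψ, G, h, rfl⟩
    have h1 := hco ψ G h
    have hK : 0 ≤ ∫ x, ‖G x‖ ^ 2 := integral_nonneg fun x => by positivity
    have hm : 0 ≤ ∫ x, ψ x ^ 2 := integral_nonneg fun x => by positivity
    have hD := coulomb_nonneg ψ
    have : 0 ≤ μ * ((∫ x, ψ x ^ 2) + (∫ x, ‖G x‖ ^ 2) +
      coulomb (fun x => ψ x ^ 2) (fun x => ψ x ^ 2)) := by positivity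
    linarith
  have hbdd : BddBelow 𝓔 := ⟨_, hlow⟩
  have hUmem : U ∈ 𝓔 := ⟨_, _, zero_admissible p, (energy_zero hp).symm⟩
  have hne : 𝓔.Nonempty := ⟨_, hUmem⟩
  set I := sInf 𝓔 with hI
  have hIU : I ≤ U := csInf_le hbdd hUmem
  have hIle : ∀ lam, 0 ≤ lam → I ≤ groundEnergy A γ C p z R lam := by
    intro lam hl
    refine le_csInf (energies_nonempty A γ C p z R hl) ?_
    rintro e ⟨ψ, G, h, -, rfl⟩
    exact csInf_le hbdd ⟨ψ, G, h, rfl⟩
  have hEbdd : ∀ lam, BddBelow (energies A γ C p z R lam) := by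
    intro lam
    refine ⟨U - K₀, ?_⟩
    rintro e ⟨ψ, G, h, -, rfl⟩
    exact hlow _ ⟨ψ, G, h, rfl⟩
  -- minimizing sequence
  have hseq : ∀ n : ℕ, ∃ ψ G, Admissible p ψ G ∧ energy A γ C p z R ψ G < I + 1 / (n + 1) := by
    intro n
    obtain ⟨e, ⟨ψ, G, h, rfl⟩, he⟩ := exists_lt_of_csInf_lt hne
      (show I < I + 1 / ((n : ℝ) + 1) by
        have : (0 : ℝ) < 1 / ((n : ℝ) + 1) := by positivity
        linarith)
    exact ⟨ψ, G, h, he⟩
  choose ψ G hadm hen using hseq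
  have hen1 : ∀ n, energy A γ C p z R (ψ n) (G n) ≤ U + 1 := by
    intro n
    have h1 := hen n
    have h2 : 1 / ((n : ℝ) + 1) ≤ 1 := by
      rw [div_le_one (by positivity)]
      have : (0 : ℝ) ≤ n := by positivity
      linarith
    linarith
  set L : ℝ := (1 + K₀) / μ with hL
  have hmass : ∀ n, (∫ x, ψ n x ^ 2) + (∫ x, ‖G n x‖ ^ 2) +
      coulomb (fun x => ψ n x ^ 2) (fun x => ψ n x ^ 2) ≤ L := by
    intro n
    have h1 := hco (ψ n) (G n) (hadm n)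
    have h2 := hen1 n
    rw [hL, le_div_iff₀ hμ]
    linarith
  have hK : ∀ n, 0 ≤ ∫ x, ‖G n x‖ ^ 2 := fun n => integral_nonneg fun x => by positivity
  have hm : ∀ n, 0 ≤ ∫ x, ψ n x ^ 2 := fun n => integral_nonneg fun x => by positivity
  have hD : ∀ n, 0 ≤ coulomb (fun x => ψ n x ^ 2) (fun x => ψ n x ^ 2) :=
    fun n => coulomb_nonneg (ψ n)
  have hmem : ∀ n, (∫ x, ψ n x ^ 2) ∈ Set.Icc 0 L := by
    intro n
    refine ⟨hm n, ?_⟩
    have := hmass n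
    have := hK n
    have := hD n
    linarith
  obtain ⟨lam, hlam, φ, hφ, hlim⟩ := isCompact_Icc.tendsto_subseq hmem
  refine ⟨lam, hlam.1, fun ν hν => le_trans ?_ (hIle ν hν)⟩
  have hone : Tendsto (fun n : ℕ => I + 1 / ((φ n : ℝ) + 1)) atTop (𝓝 I) := by
    have h1 : Tendsto (fun n : ℕ => 1 / ((n : ℝ) + 1)) atTop (𝓝 0) :=
      tendsto_one_div_add_atTop_nhds_zero_nat
    have h2 := (h1.comp hφ.tendsto_atTop).const_add I
    simpa using h2
  rcases hlam.1.eq_or_lt with h0 | hpos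
  · -- the mass tends to zero
    subst h0
    obtain ⟨C₂, hC₂, hge⟩ := energy_ge_mass (R := R) hA hγ hC hp hz
    have h1 : groundEnergy A γ C p z R 0 ≤ U := by
      refine csInf_le (hEbdd 0) ⟨_, _, zero_admissible p, by simp, (energy_zero hp).symm⟩
    have h2 : U ≤ I := by
      have t1 : Tendsto (fun n => U - C₂ * ∫ x, ψ (φ n) x ^ 2) atTop (𝓝 (U - C₂ * 0)) :=
        (hlim.const_mul C₂).const_sub U
      rw [mul_zero, sub_zero] at t1
      refine le_of_tendsto_of_tendsto' t1 hone fun n => ?_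
      exact (hge _ _ (hadm (φ n))).trans (hen (φ n)).le
    exact h1.trans h2
  · -- scaling
    obtain ⟨B, hB0, hB⟩ := attraction_real
    obtain ⟨C', hC'0, hC'⟩ := key_real hp (ε := 1) one_pos
    set Z := ∑ j, z j with hZ
    have hZ0 : 0 ≤ Z := Finset.sum_nonneg fun j _ => hz j
    have hα := alpha_pos hγ hC hp
    have hL0 : 0 ≤ L := (hmem 0).1.trans (hmem 0).2
    set W₀ : ℝ := Z * (B * (2 * L)) with hW₀
    set Q₀ : ℝ := 2 * L + C' * L with hQ₀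
    set B₀ : ℝ := A * L + (1 + W₀ + 3 * C / 4 * Q₀) + 3 * C / 4 * Q₀ + alpha γ C p * L +
      W₀ + L with hB₀
    have hbound : ∀ n, A * (∫ x, ‖G n x‖ ^ 2) +
        γ / p * (∫ x, (ψ n x ^ 2) ^ p) + 3 * C / 4 * (∫ x, (ψ n x ^ 2) ^ (4 / 3 : ℝ)) +
        alpha γ C p * (∫ x, ψ n x ^ 2) + (∫ x, nuclearPotential z R x * ψ n x ^ 2) +
        coulomb (fun x => ψ n x ^ 2) (fun x => ψ n x ^ 2) ≤ B₀ := by
      intro n
      have m1 := hmass n
      have k1 := hK n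
      have m2 := hm n
      have d1 := hD n
      have w1 : ∫ x, nuclearPotential z R x * ψ n x ^ 2 ≤ W₀ := by
        rw [potential_eq (hadm n), hW₀, hZ, Finset.sum_mul]
        refine Finset.sum_le_sum fun j _ => mul_le_mul_of_nonneg_left ?_ (hz j)
        refine (hB p _ _ (hadm n) (R j)).trans ?_
        gcongr
        linarith
      have q1 : ∫ x, (ψ n x ^ 2) ^ (4 / 3 : ℝ) ≤ Q₀ := by
        refine (hC' _ _ (hadm n)).trans ?_
        rw [hQ₀, one_mul]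
        have : coulomb (fun x => ψ n x ^ 2) (fun x => ψ n x ^ 2) ≤ L := by linarith
        gcongr
        linarith
      have q2 : 3 * C / 4 * (∫ x, (ψ n x ^ 2) ^ (4 / 3 : ℝ)) ≤ 3 * C / 4 * Q₀ := by gcongr
      have a1 : A * (∫ x, ‖G n x‖ ^ 2) ≤ A * L := by gcongr; linarith
      have a2 : alpha γ C p * (∫ x, ψ n x ^ 2) ≤ alpha γ C p * L := by gcongr; linarith
      have a3 : 0 ≤ A * (∫ x, ‖G n x‖ ^ 2) := by positivity
      have a4 : 0 ≤ alpha γ C p * (∫ x, ψ n x ^ 2) := by positivity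
      have e1 := energy_eq (A := A) (γ := γ) (C := C) (z := z) (R := R) hp (hadm n)
      have e2 := hen1 n
      have p1 : γ / p * (∫ x, (ψ n x ^ 2) ^ p) ≤ 1 + W₀ + 3 * C / 4 * Q₀ := by
        rw [e1] at e2
        linarith
      rw [hB₀]
      linarith
    -- the scaled functions
    have hs : Tendsto (fun n => lam / ∫ x, ψ (φ n) x ^ 2) atTop (𝓝 1) := by
      have := (tendsto_const_nhds (x := lam)).div hlim hpos.ne'
      rw [div_self hpos.ne'] at this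
      exact this
    have hfin : Tendsto (fun n : ℕ => (I + 1 / ((φ n : ℝ) + 1)) +
        err p (lam / ∫ x, ψ (φ n) x ^ 2) * B₀) atTop (𝓝 (I + 0 * B₀)) :=
      hone.add (((err_tendsto p).comp hs).mul_const B₀)
    rw [zero_mul, add_zero] at hfin
    refine ge_of_tendsto hfin ?_
    have hev : ∀ᶠ n in atTop, 0 < ∫ x, ψ (φ n) x ^ 2 := hlim.eventually (lt_mem_nhds hpos)
    filter_upwards [hev] with n hn
    have hs0 : 0 < lam / ∫ x, ψ (φ n) x ^ 2 := div_pos hpos hn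
    have h1 := energy_scale_le (R := R) hA hγ hC hp hz (hadm (φ n)) hs0
    have h2 : groundEnergy A γ C p z R lam ≤ energy A γ C p z R
        (fun x => Real.sqrt (lam / ∫ x, ψ (φ n) x ^ 2) * ψ (φ n) x)
        (fun x => Real.sqrt (lam / ∫ x, ψ (φ n) x ^ 2) • G (φ n) x) := by
      refine csInf_le (hEbdd lam) ⟨_, _, (hadm (φ n)).scale hs0, ?_, rfl⟩
      simp_rw [sq_sqrt_mul hs0]
      rw [integral_const_mul, div_mul_cancel₀ _ hn.ne']
    have h3 : 0 ≤ err p (lam / ∫ x, ψ (φ n) x ^ 2) := by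
      unfold err; positivity
    calc groundEnergy A γ C p z R lam ≤ _ := h2
      _ ≤ _ := h1
      _ ≤ (I + 1 / ((φ n : ℝ) + 1)) + err p (lam / ∫ x, ψ (φ n) x ^ 2) * B₀ := by
          refine add_le_add (hen (φ n)).le ?_
          exact mul_le_mul_of_nonneg_left (hbound (φ n)) h3

end Existence

end Pool.Agent.H51.Tfdw
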