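import Pool.Agent.H51.Tfdw.Young

set_option autoImplicit false

open MeasureTheory Filter Topology Metric
open scoped ENNReal NNReal

namespace Pool.Agent.H51.Tfdw

/-- The volume of the unit ball. -/
noncomputable def vB : ℝ≥0∞ := volume (ball (0 : E3) 1)

lemma vB_pos : vB ≠ 0 := (measure_ball_pos volume (0 : E3) one_pos).ne'
lemma vB_top : vB ≠ ∞ := measure_ball_lt_top.ne

lemma vol_closedBall (a : E3) {r : ℝ} (hr : 0 ≤ r) :
    volume (closedBall a r) = ENNReal.ofReal (r ^ 3) * vB := by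
  rw [Measure.addHaar_closedBall _ _ hr]
  simp [vB]

lemma measurable_ballInd (r : ℝ) : MeasurableSet {z : E3 × E3 | z.2 ∈ closedBall z.1 r} := by
  have : IsClosed {z : E3 × E3 | dist z.2 z.1 ≤ r} :=
    isClosed_le (continuous_snd.dist continuous_fst) continuous_const
  exact this.measurableSet

lemma lintegral_ball_avg {f : E3 → ℝ≥0∞} (hf : AEMeasurable f) {r : ℝ} (hr : 0 ≤ r) :
    ∫⁻ a, ∫⁻ x in closedBall a r, f x = ENNReal.ofReal (r ^ 3) * vB * ∫⁻ x, f x := by
  simp_rw [← lintegral_indicator measurableSet_closedBall]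
  rw [lintegral_lintegral_swap]
  · have : ∀ x, ∫⁻ a, (closedBall a r).indicator f x = ENNReal.ofReal (r ^ 3) * vB * f x := by
      intro x
      have e : ∀ a, (closedBall a r).indicator f x = (closedBall x r).indicator (fun _ => f x) a := by
        intro a
        by_cases h : x ∈ closedBall a r
        · rw [Set.indicator_of_mem h, Set.indicator_of_mem (mem_closedBall_comm.1 h)]
        · rw [Set.indicator_of_notMem h,
            Set.indicator_of_notMem (fun h' => h (mem_closedBall_comm.1 h'))]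
      simp_rw [e]
      rw [lintegral_indicator measurableSet_closedBall, setLIntegral_const,
        vol_closedBall x hr, mul_comm]
    simp_rw [this]
    rw [lintegral_const_mul'']
    exact hf
  · have m1 : AEMeasurable (fun z : E3 × E3 => f z.2) (volume.prod volume) := hf.comp_snd
    have := m1.indicator (measurable_ballInd r)
    exact this.congr (Eventually.of_forall fun z => rfl)

/-- Twice the Coulomb energy, as an extended nonnegative number. -/
noncomputable def coulInf (f : E3 → ℝ≥0∞) : ℝ≥0∞ :=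
  ∫⁻ x, ∫⁻ y, f x * f y * ENNReal.ofReal (‖x - y‖⁻¹)

lemma avg_sq_le_aux {f : E3 → ℝ≥0∞} (g : E3 → E3 → ℝ≥0∞)
    (hg : ∀ a x, g a x = (closedBall a 1).indicator f x) (hgm : Measurable (Function.uncurry g))
    (F : E3 → ℝ≥0∞) (hF : ∀ a, F a = ∫⁻ x, g a x) (hFm : Measurable F) :
    ∫⁻ a, F a ^ 2 ≤ 2 * vB * coulInf f := by
  have hgF : Measurable (Function.uncurry fun a x => g a x * F a) := by
    have : Measurable (fun z : E3 × E3 => F z.1) := hFm.comp measurable_fst
    exact hgm.mul this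
  calc ∫⁻ a, F a ^ 2 = ∫⁻ a, ∫⁻ x, g a x * F a := by
        refine lintegral_congr fun a => ?_
        have m : Measurable (fun x => g a x) := hgm.comp measurable_prodMk_left
        rw [lintegral_mul_const _ m, sq, ← hF]
    _ = ∫⁻ x, ∫⁻ a, g a x * F a := by
        rw [lintegral_lintegral_swap hgF.aemeasurable]
    _ ≤ ∫⁻ x, ∫⁻ y, 2 * vB * (f x * f y * ENNReal.ofReal (‖x - y‖⁻¹)) := by
        refine lintegral_mono fun x => ?_
        have e1 : ∀ a, g a x * F a = ∫⁻ y, g a x * g a y := by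
          intro a
          have m : Measurable (fun x => g a x) := hgm.comp measurable_prodMk_left
          rw [lintegral_const_mul _ m, ← hF]
        simp_rw [e1]
        have hm2 : Measurable (Function.uncurry fun a y => g a x * g a y) := by
          have m2 : Measurable (fun z : E3 × E3 => g z.1 x) :=
            (hgm.comp (measurable_id.prodMk measurable_const)).comp measurable_fst
          exact m2.mul hgm
        rw [lintegral_lintegral_swap hm2.aemeasurable]
        refine lintegral_mono_ae ?_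
        have hne : ∀ᵐ y : E3, y ≠ x := by
          have : volume ({x} : Set E3) = 0 := measure_singleton x
          exact (measure_eq_zero_iff_ae_notMem.1 this)
        filter_upwards [hne] with y hy
        have hpos : 0 < ‖x - y‖ := norm_pos_iff.2 (sub_ne_zero.2 (Ne.symm hy))
        by_cases hd : ‖x - y‖ ≤ 2
        · calc ∫⁻ a, g a x * g a y ≤ ∫⁻ a, (closedBall x 1).indicator (fun _ => f x * f y) a := by
                refine lintegral_mono fun a => ?_
                by_cases h : x ∈ closedBall a 1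
                · have h' : a ∈ closedBall x 1 := mem_closedBall_comm.1 h
                  rw [Set.indicator_of_mem h']
                  have i1 : g a x = f x := by rw [hg, Set.indicator_of_mem h]
                  have i2 : g a y ≤ f y := by rw [hg]; exact Set.indicator_le_self _ _ _
                  change g a x * g a y ≤ f x * f y
                  rw [i1]
                  gcongr
                · have i1 : g a x = 0 := by rw [hg, Set.indicator_of_notMem h]
                  change g a x * g a y ≤ _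
                  rw [i1]; simp
            _ = vB * (f x * f y) := by
                rw [lintegral_indicator measurableSet_closedBall, setLIntegral_const,
                  vol_closedBall x zero_le_one]
                simp [mul_comm]
            _ ≤ 2 * vB * (f x * f y * ENNReal.ofReal (‖x - y‖⁻¹)) := by
                have h2 : (1 : ℝ≥0∞) ≤ 2 * ENNReal.ofReal (‖x - y‖⁻¹) := by
                  have h3 : (1 : ℝ) ≤ 2 * ‖x - y‖⁻¹ := by
                    rw [← div_eq_mul_inv, le_div_iff₀ hpos]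
                    linarith
                  have h4 := ENNReal.ofReal_le_ofReal h3
                  rw [ENNReal.ofReal_mul (by norm_num), ENNReal.ofReal_one] at h4
                  simpa using h4
                calc vB * (f x * f y) = vB * (f x * f y) * 1 := by rw [mul_one]
                  _ ≤ vB * (f x * f y) * (2 * ENNReal.ofReal (‖x - y‖⁻¹)) := by gcongr
                  _ = _ := by ring
        · have : ∀ a, g a x * g a y = 0 := by
            intro a
            by_cases h : x ∈ closedBall a 1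
            · by_cases h' : y ∈ closedBall a 1
              · exfalso
                apply hd
                rw [mem_closedBall, dist_eq_norm] at h h'
                calc ‖x - y‖ = ‖(x - a) - (y - a)‖ := by congr 1; abel
                  _ ≤ ‖x - a‖ + ‖y - a‖ := norm_sub_le _ _
                  _ ≤ 2 := by linarith
              · have : g a y = 0 := by rw [hg, Set.indicator_of_notMem h']
                rw [this, mul_zero]
            · have : g a x = 0 := by rw [hg, Set.indicator_of_notMem h]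
              rw [this, zero_mul]
          change ∫⁻ a, g a x * g a y ≤ _
          simp_rw [this]
          simp
    _ = 2 * vB * coulInf f := by
        unfold coulInf
        rw [← lintegral_const_mul' _ _ (ENNReal.mul_ne_top (by simp) vB_top)]
        refine lintegral_congr fun x => ?_
        rw [lintegral_const_mul' _ _ (ENNReal.mul_ne_top (by simp) vB_top)]

lemma avg_sq_le {f : E3 → ℝ≥0∞} (hf : Measurable f) :
    ∫⁻ a, (∫⁻ x in closedBall a 1, f x) ^ 2 ≤ 2 * vB * coulInf f := by
  have hgm : Measurable (Function.uncurry fun (a x : E3) => (closedBall a 1).indicator f x) := by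
    have m1 : Measurable (fun z : E3 × E3 => f z.2) := hf.comp measurable_snd
    exact m1.indicator (measurable_ballInd 1)
  simp_rw [← lintegral_indicator measurableSet_closedBall]
  exact avg_sq_le_aux _ (fun _ _ => rfl) hgm _ (fun _ => rfl) hgm.lintegral_prod_right'

lemma avg_sq_le' {f : E3 → ℝ≥0∞} (hf : AEMeasurable f) :
    ∫⁻ a, (∫⁻ x in closedBall a 1, f x) ^ 2 ≤ 2 * vB * coulInf f := by
  have h1 : ∀ a, ∫⁻ x in closedBall a 1, f x = ∫⁻ x in closedBall a 1, hf.mk f x := by
    intro a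
    exact lintegral_congr_ae (ae_restrict_of_ae hf.ae_eq_mk)
  have h2 : coulInf f = coulInf (hf.mk f) := by
    unfold coulInf
    refine lintegral_congr_ae ?_
    filter_upwards [hf.ae_eq_mk] with x hx
    refine lintegral_congr_ae ?_
    filter_upwards [hf.ae_eq_mk] with y hy
    rw [hx, hy]
  simp_rw [h1]
  rw [h2]
  exact avg_sq_le hf.measurable_mk

/-- **Key inequality**: `∫ ρ^{4/3} ≤ ε (∫ |∇ψ|² + ∫ ψ²) + C D`. -/
theorem key_inequality {ε : ℝ≥0} (hε : 0 < ε) : ∃ C : ℝ≥0, ∀ (ψ : E3 → ℝ) (G : E3 → E3),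
    LocallyIntegrable ψ → LocallyIntegrable G → IsWeakGradient ψ G →
    ∫⁻ x, ‖ψ x‖ₑ ^ (8 / 3 : ℝ) ≤ ε * ((∫⁻ x, ‖G x‖ₑ ^ 2) + ∫⁻ x, ‖ψ x‖ₑ ^ 2) +
      C * coulInf (fun x => ‖ψ x‖ₑ ^ 2) := by
  obtain ⟨S, hS⟩ := local_sobolev
  obtain ⟨C, hC⟩ := young_ennreal (S ^ (1 / 6 : ℝ)) (ε := ε / 16) (by positivity)
  refine ⟨16 * C, fun ψ G hψ hG h => ?_⟩
  have hψm : AEMeasurable (fun x => ‖ψ x‖ₑ) := hψ.aestronglyMeasurable.enorm
  have hGm : AEMeasurable (fun x => ‖G x‖ₑ) := hG.aestronglyMeasurable.enorm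
  -- local inequality
  have hloc : ∀ a, ∫⁻ x in closedBall a (1 / 2), ‖ψ x‖ₑ ^ (8 / 3 : ℝ) ≤
      (ε / 16 : ℝ≥0) * locN ψ G a + (ε / 16 : ℝ≥0) * locM ψ a + C * (locM ψ a) ^ 2 := by
    intro a
    have hwm : AEMeasurable (fun x => ‖cutAt a x * ψ x‖ₑ) := by
      simp_rw [enorm_mul]
      exact ((cutAt_contDiff a).continuous.enorm.measurable.aemeasurable).mul hψm
    calc ∫⁻ x in closedBall a (1 / 2), ‖ψ x‖ₑ ^ (8 / 3 : ℝ)
        ≤ ∫⁻ x, ‖cutAt a x * ψ x‖ₑ ^ (8 / 3 : ℝ) := by
          rw [← lintegral_indicator measurableSet_closedBall]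
          refine lintegral_mono fun x => ?_
          by_cases hx : x ∈ closedBall a (1 / 2)
          · rw [Set.indicator_of_mem hx, cutAt_eq_one, one_mul]
            rwa [mem_closedBall, dist_eq_norm] at hx
          · rw [Set.indicator_of_notMem hx]; exact zero_le
      _ ≤ (∫⁻ x, ‖cutAt a x * ψ x‖ₑ ^ 2) ^ (5 / 6 : ℝ) *
          (∫⁻ x, ‖cutAt a x * ψ x‖ₑ ^ 6) ^ (1 / 6 : ℝ) := interpolate hwm
      _ ≤ (locM ψ a) ^ (5 / 6 : ℝ) * ((S : ℝ≥0∞) * (locN ψ G a) ^ 3) ^ (1 / 6 : ℝ) := by
          have i1 : ∫⁻ x, ‖cutAt a x * ψ x‖ₑ ^ 2 ≤ locM ψ a := by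
            unfold locM
            rw [← lintegral_indicator measurableSet_closedBall]
            refine lintegral_mono fun x => ?_
            by_cases hx : x ∈ closedBall a 1
            · rw [Set.indicator_of_mem hx, enorm_mul]
              have : ‖cutAt a x‖ₑ ≤ 1 := by
                rw [← ofReal_norm, Real.norm_of_nonneg (cutAt_nonneg _ _),
                  ← ENNReal.ofReal_one]
                exact ENNReal.ofReal_le_ofReal (cutAt_le_one _ _)
              calc (‖cutAt a x‖ₑ * ‖ψ x‖ₑ) ^ 2 ≤ (1 * ‖ψ x‖ₑ) ^ 2 := by gcongr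
                _ = _ := by rw [one_mul]
            · have hx' : 1 < ‖x - a‖ := by
                rw [mem_closedBall, dist_eq_norm, not_le] at hx; exact hx
              rw [cutAt_eq_zero hx'.le]
              simp
          have i2 := hS ψ G hψ hG h a
          gcongr
      _ = (S ^ (1 / 6 : ℝ) : ℝ≥0) * ((locM ψ a) ^ (5 / 6 : ℝ) * (locN ψ G a) ^ (1 / 2 : ℝ)) := by
          rw [ENNReal.mul_rpow_of_nonneg _ _ (by norm_num), ← ENNReal.rpow_natCast,
            ← ENNReal.rpow_mul, ENNReal.coe_rpow_of_nonneg _ (by norm_num)]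
          norm_num
          ring
      _ ≤ _ := hC _ _
  have hint : ∫⁻ a, ∫⁻ x in closedBall a (1 / 2), ‖ψ x‖ₑ ^ (8 / 3 : ℝ) ≤
      (ε / 16 : ℝ≥0) * (vB * ((∫⁻ x, ‖G x‖ₑ ^ 2) + ∫⁻ x, ‖ψ x‖ₑ ^ 2)) +
      (ε / 16 : ℝ≥0) * (vB * ∫⁻ x, ‖ψ x‖ₑ ^ 2) +
      C * (2 * vB * coulInf (fun x => ‖ψ x‖ₑ ^ 2)) := by
    have hN : ∫⁻ a, locN ψ G a = vB * ((∫⁻ x, ‖G x‖ₑ ^ 2) + ∫⁻ x, ‖ψ x‖ₑ ^ 2) := by
      unfold locN
      have hf : AEMeasurable (fun x => ‖G x‖ₑ ^ 2 + ‖ψ x‖ₑ ^ 2) :=
        (hGm.pow_const 2).add (hψm.pow_const 2)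
      rw [lintegral_ball_avg hf zero_le_one, lintegral_add_left' (hGm.pow_const 2)]
      simp
    have hM : ∫⁻ a, locM ψ a = vB * ∫⁻ x, ‖ψ x‖ₑ ^ 2 := by
      unfold locM
      rw [lintegral_ball_avg (hψm.pow_const 2) zero_le_one]
      simp
    have hM2 : ∫⁻ a, (locM ψ a) ^ 2 ≤ 2 * vB * coulInf (fun x => ‖ψ x‖ₑ ^ 2) :=
      avg_sq_le' (hψm.pow_const 2)
    have hNm : AEMeasurable (fun a => locN ψ G a) := by
      unfold locN
      simp_rw [← lintegral_indicator measurableSet_closedBall]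
      have hf : AEMeasurable (fun x => ‖G x‖ₑ ^ 2 + ‖ψ x‖ₑ ^ 2) :=
        (hGm.pow_const 2).add (hψm.pow_const 2)
      have m1 : AEMeasurable (fun z : E3 × E3 => (fun x => ‖G x‖ₑ ^ 2 + ‖ψ x‖ₑ ^ 2) z.2)
        (volume.prod volume) := hf.comp_snd
      have := (m1.indicator (measurable_ballInd 1)).lintegral_prod_right'
      exact this.congr (Eventually.of_forall fun a => rfl)
    have hMm : AEMeasurable (fun a => locM ψ a) := by
      unfold locM
      simp_rw [← lintegral_indicator measurableSet_closedBall]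
      have m1 : AEMeasurable (fun z : E3 × E3 => (fun x => ‖ψ x‖ₑ ^ 2) z.2)
        (volume.prod volume) := (hψm.pow_const 2).comp_snd
      have := (m1.indicator (measurable_ballInd 1)).lintegral_prod_right'
      exact this.congr (Eventually.of_forall fun a => rfl)
    calc ∫⁻ a, ∫⁻ x in closedBall a (1 / 2), ‖ψ x‖ₑ ^ (8 / 3 : ℝ)
        ≤ ∫⁻ a, ((ε / 16 : ℝ≥0) * locN ψ G a + (ε / 16 : ℝ≥0) * locM ψ a +
            C * (locM ψ a) ^ 2) := lintegral_mono hloc
      _ = (ε / 16 : ℝ≥0) * (∫⁻ a, locN ψ G a) + (ε / 16 : ℝ≥0) * (∫⁻ a, locM ψ a) +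
            C * ∫⁻ a, (locM ψ a) ^ 2 := by
          have m3 : AEMeasurable (fun a => ((ε / 16 : ℝ≥0) : ℝ≥0∞) * locN ψ G a +
              ((ε / 16 : ℝ≥0) : ℝ≥0∞) * locM ψ a) := (hNm.const_mul _).add (hMm.const_mul _)
          rw [lintegral_add_left' m3,
            lintegral_add_left' (hNm.const_mul _), lintegral_const_mul'' _ hNm,
            lintegral_const_mul'' _ hMm, lintegral_const_mul'' _ (hMm.pow_const 2)]
      _ ≤ _ := by
          rw [hN, hM]
          gcongr
  rw [lintegral_ball_avg (hψm.pow_const _) (by norm_num)] at hint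
  set Q := ∫⁻ x, ‖ψ x‖ₑ ^ (8 / 3 : ℝ) with hQ
  set K := ∫⁻ x, ‖G x‖ₑ ^ 2 with hK
  set m := ∫⁻ x, ‖ψ x‖ₑ ^ 2 with hm
  set D := coulInf (fun x => ‖ψ x‖ₑ ^ 2) with hD
  have h8 : ENNReal.ofReal ((1 / 2) ^ 3) = (8 : ℝ≥0∞)⁻¹ := by
    rw [show ((1 / 2 : ℝ) ^ 3) = 8⁻¹ by norm_num, ENNReal.ofReal_inv_of_pos (by norm_num)]
    simp
  rw [h8] at hint
  have h9 : vB * Q ≤ vB * (ε * (K + m) + (16 * C : ℝ≥0) * D) := by
    have e16 : ((ε / 16 : ℝ≥0) : ℝ≥0∞) * 16 = ε := by
      rw [show (16 : ℝ≥0∞) = ((16 : ℝ≥0) : ℝ≥0∞) by simp, ← ENNReal.coe_mul]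
      congr 1
      exact div_mul_cancel₀ ε (by norm_num)
    calc vB * Q = 8 * (8⁻¹ * vB * Q) := by
          rw [← mul_assoc, ← mul_assoc, ENNReal.mul_inv_cancel (by simp) (by simp), one_mul]
      _ ≤ 8 * ((ε / 16 : ℝ≥0) * (vB * (K + m)) + (ε / 16 : ℝ≥0) * (vB * m) +
          C * (2 * vB * D)) := by gcongr
      _ ≤ 8 * ((ε / 16 : ℝ≥0) * (vB * (K + m)) + (ε / 16 : ℝ≥0) * (vB * (K + m)) +
          C * (2 * vB * D)) := by gcongr; exact le_add_self
      _ = vB * (((ε / 16 : ℝ≥0) * 16) * (K + m) + 16 * C * D) := by ring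
      _ = _ := by rw [e16]; push_cast; rfl
  rwa [ENNReal.mul_le_mul_iff_right vB_pos vB_top] at h9

end Pool.Agent.H51.Tfdw
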