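import Pool.Agent.H51.Tfdw.Sobolev

set_option autoImplicit false

open MeasureTheory Filter Topology Metric
open scoped ContDiff ENNReal NNReal

namespace Pool.Agent.H51.Tfdw

/-- A fixed cutoff function: `1` on the ball of radius `1/2`, supported in the unit ball. -/
noncomputable def cut : ContDiffBump (0 : E3) where
  rIn := 1 / 2
  rOut := 1
  rIn_pos := by norm_num
  rIn_lt_rOut := by norm_num

/-- The cutoff function translated to `a`. -/
noncomputable def cutAt (a x : E3) : ℝ := cut (x - a)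

lemma cutAt_contDiff (a : E3) : ContDiff ℝ ∞ (cutAt a) := by
  have : ContDiff ℝ ∞ (fun x : E3 => cut (x - a)) :=
    cut.contDiff.comp (contDiff_id.sub contDiff_const)
  exact this

lemma cutAt_nonneg (a x : E3) : 0 ≤ cutAt a x := cut.nonneg

lemma cutAt_le_one (a x : E3) : cutAt a x ≤ 1 := cut.le_one

lemma cutAt_eq_one {a x : E3} (h : ‖x - a‖ ≤ 1 / 2) : cutAt a x = 1 := by
  apply cut.one_of_mem_closedBall
  simpa [cut] using h

lemma cutAt_eq_zero {a x : E3} (h : 1 ≤ ‖x - a‖) : cutAt a x = 0 := by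
  apply cut.zero_of_le_dist
  simpa [cut] using h

lemma cutAt_compact (a : E3) : HasCompactSupport (cutAt a) := by
  have : HasCompactSupport (fun x : E3 => cut (x - a)) :=
    cut.hasCompactSupport.comp_homeomorph (Homeomorph.subRight a)
  exact this

lemma cutAt_fderiv (a x : E3) : fderiv ℝ (cutAt a) x = fderiv ℝ cut (x - a) := by
  have hd : HasFDerivAt (fun y : E3 => y - a) (ContinuousLinearMap.id ℝ E3) x := by
    simpa using (hasFDerivAt_id x).sub_const a
  have h2 : HasFDerivAt (cut : E3 → ℝ) (fderiv ℝ cut (x - a)) (x - a) :=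
    ((cut.contDiff (n := 1)).differentiable (by simp) (x - a)).hasFDerivAt
  have := h2.comp x hd
  rw [show cutAt a = (cut : E3 → ℝ) ∘ (fun y => y - a) from rfl, this.fderiv]
  simp

lemma exists_grad_bound : ∃ L : ℝ≥0, ∀ a x : E3, ‖gradient (cutAt a) x‖ ≤ L := by
  have hc : Continuous (fun x => fderiv ℝ (cut : E3 → ℝ) x) :=
    cut.contDiff.continuous_fderiv (n := 1) (by simp)
  obtain ⟨C, hC⟩ := (cut.hasCompactSupport.fderiv ℝ).exists_bound_of_continuous hc
  refine ⟨⟨max C 0, le_max_right _ _⟩, fun a x => ?_⟩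
  have : ‖gradient (cutAt a) x‖ = ‖fderiv ℝ (cutAt a) x‖ := by
    rw [gradient, LinearIsometryEquiv.norm_map]
  rw [this, cutAt_fderiv]
  exact (hC _).trans (le_max_left _ _)

lemma cutAt_gradient_eq_zero {a x : E3} (h : 1 < ‖x - a‖) : gradient (cutAt a) x = 0 := by
  have h1 : cutAt a =ᶠ[𝓝 x] fun _ => (0 : ℝ) := by
    have : ∀ᶠ y in 𝓝 x, 1 < ‖y - a‖ :=
      (continuous_norm.comp (continuous_id.sub continuous_const)).continuousAt.eventually
        (lt_mem_nhds h)
    filter_upwards [this] with y hy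
    exact cutAt_eq_zero hy.le
  rw [gradient, h1.fderiv_eq]
  simp

/-- The kinetic energy plus the mass in the unit ball around `a`. -/
noncomputable def locN (ψ : E3 → ℝ) (G : E3 → E3) (a : E3) : ℝ≥0∞ :=
  ∫⁻ x in closedBall a 1, (‖G x‖ₑ ^ 2 + ‖ψ x‖ₑ ^ 2)

/-- The mass in the unit ball around `a`. -/
noncomputable def locM (ψ : E3 → ℝ) (a : E3) : ℝ≥0∞ := ∫⁻ x in closedBall a 1, ‖ψ x‖ₑ ^ 2

/-- Local Sobolev inequality. -/
theorem local_sobolev : ∃ S : ℝ≥0, ∀ (ψ : E3 → ℝ) (G : E3 → E3), LocallyIntegrable ψ →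
    LocallyIntegrable G → IsWeakGradient ψ G → ∀ a : E3,
    ∫⁻ x, ‖cutAt a x * ψ x‖ₑ ^ 6 ≤ S * (locN ψ G a) ^ 3 := by
  obtain ⟨S, hS⟩ := sobolev_weak
  obtain ⟨L, hL⟩ := exists_grad_bound
  refine ⟨S * (2 * (1 + L ^ 2)) ^ 3, fun ψ G hψ hG h a => ?_⟩
  have hcont := (cutAt_contDiff a).continuous
  have hgc : Continuous (fun x => gradient (cutAt a) x) := by
    have : Continuous (fun x => fderiv ℝ (cutAt a) x) :=
      (cutAt_contDiff a).continuous_fderiv (by simp)
    exact (LinearIsometryEquiv.continuous _).comp this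
  have hgcs : HasCompactSupport (fun x => gradient (cutAt a) x) := by
    have := (cutAt_compact a).fderiv ℝ
    exact this.comp_left (g := fun f => (InnerProductSpace.toDual ℝ E3).symm f) (by simp)
  have h1 := hS (fun x => cutAt a x * ψ x)
    (fun x => cutAt a x • G x + ψ x • gradient (cutAt a) x) ?_ ?_
    (h.smul_smooth hψ hG (cutAt_contDiff a) (cutAt_compact a)) ((cutAt_compact a).mul_right)
  · refine h1.trans ?_
    have h2 : ∫⁻ x, ‖cutAt a x • G x + ψ x • gradient (cutAt a) x‖ₑ ^ 2 ≤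
        (2 * (1 + L ^ 2) : ℝ≥0) * locN ψ G a := by
      unfold locN
      rw [← lintegral_const_mul' _ _ ENNReal.coe_ne_top,
        ← lintegral_indicator measurableSet_closedBall]
      refine lintegral_mono fun x => ?_
      by_cases hx : x ∈ closedBall a 1
      · rw [Set.indicator_of_mem hx]
        have hb : ‖cutAt a x • G x + ψ x • gradient (cutAt a) x‖ ^ 2 ≤
            2 * (1 + L ^ 2) * (‖G x‖ ^ 2 + ‖ψ x‖ ^ 2) := by
          have b1 : ‖cutAt a x • G x + ψ x • gradient (cutAt a) x‖ ≤ ‖G x‖ + L * ‖ψ x‖ := by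
            refine (norm_add_le _ _).trans ?_
            rw [norm_smul, norm_smul]
            have c1 : ‖cutAt a x‖ ≤ 1 := by
              rw [Real.norm_of_nonneg (cutAt_nonneg _ _)]; exact cutAt_le_one _ _
            have c2 := hL a x
            have c3 := norm_nonneg (G x)
            have c4 := norm_nonneg (ψ x)
            nlinarith
          have b0 : 0 ≤ ‖cutAt a x • G x + ψ x • gradient (cutAt a) x‖ := norm_nonneg _
          have b2 : (0 : ℝ) ≤ L := L.2
          calc ‖cutAt a x • G x + ψ x • gradient (cutAt a) x‖ ^ 2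
              ≤ (‖G x‖ + L * ‖ψ x‖) ^ 2 := by gcongr
            _ ≤ 2 * (1 + L ^ 2) * (‖G x‖ ^ 2 + ‖ψ x‖ ^ 2) := by
                nlinarith [sq_nonneg (‖G x‖ - L * ‖ψ x‖), sq_nonneg (L * ‖G x‖),
                  sq_nonneg (‖ψ x‖)]
        have hb' := ENNReal.ofReal_le_ofReal hb
        rw [ENNReal.ofReal_pow (norm_nonneg _), ofReal_norm, ENNReal.ofReal_mul (by positivity),
          ENNReal.ofReal_add (by positivity) (by positivity), ENNReal.ofReal_pow (norm_nonneg _),
          ENNReal.ofReal_pow (norm_nonneg _), ofReal_norm, ofReal_norm] at hb'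
        refine hb'.trans (le_of_eq ?_)
        congr 1
        rw [← ENNReal.ofReal_coe_nnreal]
        congr 1
      · have hx' : 1 < ‖x - a‖ := by
          rw [mem_closedBall, dist_eq_norm, not_le] at hx; exact hx
        rw [cutAt_eq_zero hx'.le, cutAt_gradient_eq_zero hx']
        simp
    calc (S : ℝ≥0∞) * (∫⁻ x, ‖cutAt a x • G x + ψ x • gradient (cutAt a) x‖ₑ ^ 2) ^ 3
        ≤ S * ((2 * (1 + L ^ 2) : ℝ≥0) * locN ψ G a) ^ 3 := by gcongr
      _ = ((S * (2 * (1 + L ^ 2)) ^ 3 : ℝ≥0) : ℝ≥0∞) * (locN ψ G a) ^ 3 := by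
          push_cast; ring
  · exact (hψ.integrable_smul_left_of_hasCompactSupport hcont (cutAt_compact a)).locallyIntegrable
  · exact ((hG.integrable_smul_left_of_hasCompactSupport hcont (cutAt_compact a)).add
      (hψ.integrable_smul_right_of_hasCompactSupport hgc hgcs)).locallyIntegrable

end Pool.Agent.H51.Tfdw
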