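import Pool.Agent.H51.Tfdw.Existence

set_option autoImplicit false

open MeasureTheory Filter Topology Metric
open scoped ENNReal NNReal

namespace Pool.Agent.H51.Tfdw

variable {A γ C p : ℝ}

/-- All integrals in the energy of an admissible density converge. -/
theorem integrable_all (hp : 4 / 3 < p) {ψ : E3 → ℝ} {G : E3 → E3} (h : Admissible p ψ G)
    {k : ℕ} (z : Fin k → ℝ) (R : Fin k → E3) :
    Integrable (fun x => ‖G x‖ ^ 2) ∧ Integrable (fun x => Jalpha γ C p (ψ x ^ 2)) ∧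
      Integrable (fun x => nuclearPotential z R x * ψ x ^ 2) ∧
      Integrable (fun w : E3 × E3 => ψ w.1 ^ 2 * ψ w.2 ^ 2 / ‖w.1 - w.2‖) := by
  refine ⟨h.intG, h.intJ hp, ?_, ?_, ?_⟩
  · unfold nuclearPotential
    have e : ∀ x, (∑ j, z j / ‖x - R j‖) * ψ x ^ 2 = ∑ j, z j * (ψ x ^ 2 / ‖x - R j‖) := by
      intro x
      rw [Finset.sum_mul]
      refine Finset.sum_congr rfl fun j _ => ?_
      ring
    simp_rw [e]
    exact integrable_finsetSum _ fun j _ => (h.intAttr (R j)).const_mul _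
  · have m1 : AEMeasurable (fun z : E3 × E3 => ψ z.1 ^ 2) (volume.prod volume) :=
      (h.2.1.1.aemeasurable.comp_fst).pow_const 2
    have m2 : AEMeasurable (fun z : E3 × E3 => ψ z.2 ^ 2) (volume.prod volume) :=
      (h.2.1.1.aemeasurable.comp_snd).pow_const 2
    have m3 : Measurable (fun z : E3 × E3 => ‖z.1 - z.2‖) :=
      (measurable_fst.sub measurable_snd).norm
    exact ((m1.mul m2).div m3.aemeasurable).aestronglyMeasurable
  · rw [hasFiniteIntegral_iff_ofReal (Eventually.of_forall fun w => by positivity)]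
    have m1 : AEMeasurable (fun z : E3 × E3 => ψ z.1 ^ 2) (volume.prod volume) :=
      (h.2.1.1.aemeasurable.comp_fst).pow_const 2
    have m2 : AEMeasurable (fun z : E3 × E3 => ψ z.2 ^ 2) (volume.prod volume) :=
      (h.2.1.1.aemeasurable.comp_snd).pow_const 2
    have m3 : Measurable (fun z : E3 × E3 => ‖z.1 - z.2‖) :=
      (measurable_fst.sub measurable_snd).norm
    have m4 : AEMeasurable (fun w : E3 × E3 =>
        ENNReal.ofReal (ψ w.1 ^ 2 * ψ w.2 ^ 2 / ‖w.1 - w.2‖)) (volume.prod volume) :=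
      ENNReal.measurable_ofReal.comp_aemeasurable ((m1.mul m2).div m3.aemeasurable)
    change ∫⁻ w : E3 × E3, _ ∂(volume.prod volume) < ∞
    rw [lintegral_prod _ m4]
    refine lt_of_eq_of_lt ?_ h.coulInf_lt_top
    unfold coulInf
    refine lintegral_congr fun x => lintegral_congr fun y => ?_
    simp only
    rw [div_eq_mul_inv, ENNReal.ofReal_mul (by positivity), ENNReal.ofReal_mul (by positivity),
      ← ofReal_norm, ← ofReal_norm, ← ENNReal.ofReal_pow (norm_nonneg _),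
      ← ENNReal.ofReal_pow (norm_nonneg _), Real.norm_eq_abs, Real.norm_eq_abs, sq_abs, sq_abs]

lemma coercive_of_attraction (hA : 0 < A) (hγ : 0 < γ) (hC : 0 < C) (hp : 4 / 3 < p) :
    ∃ μ : ℝ, 0 < μ ∧ ∀ (k : ℕ) (z : Fin k → ℝ) (R : Fin k → E3) (K₀ : ℝ),
      (∀ (ψ : E3 → ℝ) (G : E3 → E3), Admissible p ψ G →
        ∑ j, z j * ∫ x, ψ x ^ 2 / ‖x - R j‖ ≤ μ * ((∫ x, ψ x ^ 2) + (∫ x, ‖G x‖ ^ 2) +
        coulomb (fun x => ψ x ^ 2) (fun x => ψ x ^ 2)) + K₀) → Coercive A γ C p z R μ K₀ := by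
  obtain ⟨c, hc, hco⟩ := coercivity hA hγ hC hp
  set M : ℝ := min c (min (A / 2) (1 / 2)) with hM
  have hM0 : 0 < M := by positivity
  refine ⟨M / 2, by positivity, fun k z R K₀ hW ψ G h => ?_⟩
  have h1 := hco ψ G h
  have h2 := hW ψ G h
  have hK : 0 ≤ ∫ x, ‖G x‖ ^ 2 := integral_nonneg fun x => by positivity
  have hm : 0 ≤ ∫ x, ψ x ^ 2 := integral_nonneg fun x => by positivity
  have hD := coulomb_nonneg ψ
  have m1 : M ≤ c := min_le_left _ _
  have m2 : M ≤ A / 2 := (min_le_right _ _).trans (min_le_left _ _)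
  have m3 : M ≤ 1 / 2 := (min_le_right _ _).trans (min_le_right _ _)
  unfold energy
  rw [potential_eq h]
  nlinarith [mul_le_mul_of_nonneg_right m1 hm, mul_le_mul_of_nonneg_right m2 hK,
    mul_le_mul_of_nonneg_right m3 hD]

/-- The energy is coercive for every configuration of nuclei. -/
theorem coercive_all (hA : 0 < A) (hγ : 0 < γ) (hC : 0 < C) (hp : 4 / 3 < p)
    {k : ℕ} (z : Fin k → ℝ) (R : Fin k → E3) (hz : ∀ j, 0 ≤ z j) :
    ∃ μ K₀ : ℝ, 0 < μ ∧ Coercive A γ C p z R μ K₀ := by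
  obtain ⟨μ, hμ, h⟩ := coercive_of_attraction hA hγ hC hp
  have hk : (0 : ℝ) < (k : ℝ) + 1 := by positivity
  choose K hK0 hK using fun j => strong_bound (hz j) (η := μ / (k + 1)) (by positivity)
  refine ⟨μ, ∑ j, K j, hμ, h k z R _ fun ψ G hadm => ?_⟩
  have hKn : 0 ≤ ∫ x, ‖G x‖ ^ 2 := integral_nonneg fun x => by positivity
  have hm : 0 ≤ ∫ x, ψ x ^ 2 := integral_nonneg fun x => by positivity
  have hD := coulomb_nonneg ψ
  calc ∑ j, z j * ∫ x, ψ x ^ 2 / ‖x - R j‖
      ≤ ∑ j, (μ / (k + 1) * ((∫ x, ψ x ^ 2) + (∫ x, ‖G x‖ ^ 2) +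
        coulomb (fun x => ψ x ^ 2) (fun x => ψ x ^ 2)) + K j) :=
        Finset.sum_le_sum fun j _ => hK j p ψ G hadm (R j)
    _ = (k * (μ / (k + 1))) * ((∫ x, ψ x ^ 2) + (∫ x, ‖G x‖ ^ 2) +
        coulomb (fun x => ψ x ^ 2) (fun x => ψ x ^ 2)) + ∑ j, K j := by
        rw [Finset.sum_add_distrib, Finset.sum_const, Finset.card_univ, Fintype.card_fin,
          nsmul_eq_mul]
        ring
    _ ≤ μ * ((∫ x, ψ x ^ 2) + (∫ x, ‖G x‖ ^ 2) +
        coulomb (fun x => ψ x ^ 2) (fun x => ψ x ^ 2)) + ∑ j, K j := by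
        have : (k : ℝ) * (μ / (k + 1)) ≤ μ := by
          rw [← mul_div_assoc, div_le_iff₀ hk]; nlinarith
        gcongr

/-- Well-posedness: the infima are genuine, and absolute-minimum points exist. -/
theorem wellposed (hA : 0 < A) (hγ : 0 < γ) (hC : 0 < C) (hp : 4 / 3 < p)
    {k : ℕ} (z : Fin k → ℝ) (R : Fin k → E3) (hz : ∀ j, 0 < z j) :
    (∀ lam, 0 ≤ lam → (energies A γ C p z R lam).Nonempty ∧
      BddBelow (energies A γ C p z R lam)) ∧ ∃ lam, IsAbsMinPoint A γ C p z R lam := by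
  obtain ⟨μ, K₀, hμ, hco⟩ := coercive_all hA hγ hC hp z R fun j => (hz j).le
  refine ⟨fun lam hl => ⟨energies_nonempty A γ C p z R hl, nuclearRepulsion z R - K₀, ?_⟩,
    exists_absMin hA hγ hC hp (fun j => (hz j).le) hμ hco⟩
  rintro e ⟨ψ, G, h, -, rfl⟩
  have h1 := hco ψ G h
  have hK : 0 ≤ ∫ x, ‖G x‖ ^ 2 := integral_nonneg fun x => by positivity
  have hm : 0 ≤ ∫ x, ψ x ^ 2 := integral_nonneg fun x => by positivity
  have hD := coulomb_nonneg ψ
  have : 0 ≤ μ * ((∫ x, ψ x ^ 2) + (∫ x, ‖G x‖ ^ 2) +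
    coulomb (fun x => ψ x ^ 2) (fun x => ψ x ^ 2)) := by positivity
  linarith

lemma cut_integral_pos : 0 < ∫ x : E3, cut x ^ 2 := by
  have hcont : Continuous (cut : E3 → ℝ) := cut.continuous
  have hc : Continuous (fun x : E3 => cut x ^ 2) := hcont.pow 2
  refine hc.integral_pos_of_hasCompactSupport_nonneg_nonzero ?_ (fun x => by positivity)
    (x := 0) ?_
  · exact cut.hasCompactSupport.comp_left (g := fun t : ℝ => t ^ 2) (by simp)
  · have : (cut : E3 → ℝ) 0 = 1 := cut.one_of_mem_closedBall (by simp [cut])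
    simp [this]

lemma cut_admissible (p : ℝ) : Admissible p cut (gradient cut) :=
  admissible_of_smooth cut.contDiff cut.hasCompactSupport fun _ => cut.nonneg

lemma cut_attr_pos : 0 < ∫ x : E3, cut x ^ 2 / ‖x - 0‖ := by
  refine cut_integral_pos.trans_le ?_
  refine integral_mono_ae (cut_admissible 2).intSq ((cut_admissible 2).intAttr 0) ?_
  have hne : ∀ᵐ y : E3, y ≠ 0 := by
    have : volume ({0} : Set E3) = 0 := measure_singleton 0
    exact measure_eq_zero_iff_ae_notMem.1 this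
  filter_upwards [hne] with x hx
  rw [sub_zero]
  have hpos : 0 < ‖x‖ := norm_pos_iff.2 hx
  rcases le_total ‖x‖ 1 with h | h
  · rw [le_div_iff₀ hpos]
    nlinarith [sq_nonneg (cut x)]
  · have : (cut : E3 → ℝ) x = 0 := by
      apply cut.zero_of_le_dist
      simpa [cut] using h
    rw [this]; simp

/-- The charges of the example: one strong nucleus and `n` weak ones. -/
noncomputable def exCharge (n : ℕ) (z₁ ε : ℝ) : Fin (n + 1) → ℝ := fun j => if j = 0 then z₁ else ε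

/-- The positions of the example. -/
noncomputable def exPos (n : ℕ) : Fin (n + 1) → E3 :=
  fun j => EuclideanSpace.single 0 ((2 * ((n + 1 : ℕ) : ℝ) + 3) * (j : ℝ))

lemma exPos_sep (n : ℕ) (i j : Fin (n + 1)) (hij : i ≠ j) :
    2 * ((n + 1 : ℕ) : ℝ) + 3 ≤ ‖exPos n i - exPos n j‖ := by
  have hsub : ∀ a b : ℝ, (EuclideanSpace.single 0 a : E3) - EuclideanSpace.single 0 b =
      EuclideanSpace.single 0 (a - b) := by
    intro a b
    ext l
    simp only [PiLp.sub_apply, PiLp.single_apply]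
    split_ifs <;> simp
  unfold exPos
  rw [hsub, EuclideanSpace.norm_single, ← mul_sub, norm_mul,
    Real.norm_of_nonneg (by positivity), Real.norm_eq_abs]
  have h1 : (1 : ℝ) ≤ |(i : ℝ) - (j : ℝ)| := by
    have h2 : ((i : ℕ) : ℤ) - ((j : ℕ) : ℤ) ≠ 0 := by
      intro h
      apply hij
      apply Fin.ext
      omega
    have h3 := Int.one_le_abs h2
    exact_mod_cast h3
  have h0 : (0 : ℝ) ≤ 2 * ((n + 1 : ℕ) : ℝ) + 3 := by positivity
  nlinarith

theorem nondegenerate (hA : 0 < A) (hγ : 0 < γ) (hC : 0 < C) (hp : 4 / 3 < p) (M : ℝ) :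
    ∃ (k : ℕ) (z : Fin k → ℝ) (R : Fin k → E3), (∀ j, 0 < z j) ∧ Function.Injective R ∧
      ∀ lam, IsAbsMinPoint A γ C p z R lam → 0 < lam ∧ lam < (∑ j, z j) - M := by
  obtain ⟨μ, hμ, hcoer⟩ := coercive_of_attraction hA hγ hC hp
  -- the trial function
  set T₁ : ℝ := A * (∫ x, ‖gradient cut x‖ ^ 2) + (∫ x, Jalpha γ C p (cut x ^ 2)) +
    coulomb (fun x => cut x ^ 2) (fun x => cut x ^ 2) with hT₁
  set a₁ : ℝ := ∫ x : E3, cut x ^ 2 / ‖x - 0‖ with ha₁
  have ha₁pos : 0 < a₁ := cut_attr_pos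
  have hT₁0 : 0 ≤ T₁ := by
    have h1 : 0 ≤ ∫ x, ‖gradient (cut : E3 → ℝ) x‖ ^ 2 := integral_nonneg fun x => by positivity
    have h2 : 0 ≤ ∫ x : E3, Jalpha γ C p (cut x ^ 2) :=
      integral_nonneg fun x => Jalpha_nonneg hγ hC hp (by positivity)
    have h3 := coulomb_nonneg (cut : E3 → ℝ)
    positivity
  set z₁ : ℝ := T₁ / a₁ + 1 with hz₁
  have hz₁0 : 0 < z₁ := by positivity
  have htrial : T₁ < z₁ * a₁ := by
    rw [hz₁, add_mul, div_mul_cancel₀ _ ha₁pos.ne', one_mul]; linarith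
  obtain ⟨K₀, hK₀, hstrong⟩ := strong_bound hz₁0.le (η := μ / 2) (by positivity)
  obtain ⟨ε, hε, hweak⟩ := weak_bound (η := μ / 2) (by positivity)
  obtain ⟨n, hn⟩ := exists_nat_gt ((M + K₀ / μ) / ε)
  have hn' : M + K₀ / μ < n * ε := by rwa [div_lt_iff₀ hε] at hn
  set z := exCharge n z₁ ε with hz
  set R := exPos n with hR
  have hzpos : ∀ j, 0 < z j := by
    intro j
    rw [hz]; unfold exCharge
    split_ifs
    · exact hz₁0
    · exact hε
  have hsum : ∀ a : Fin (n + 1) → ℝ, ∑ j, z j * a j = z₁ * a 0 + ε * ∑ j : Fin n, a j.succ := by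
    intro a
    rw [Fin.sum_univ_succ, Finset.mul_sum]
    simp [hz, exCharge]
  have hZ : ∑ j, z j = z₁ + n * ε := by
    have := hsum (fun _ => 1)
    simp only [mul_one, Finset.sum_const, Finset.card_univ, Fintype.card_fin, nsmul_eq_mul] at this
    rw [this]; ring
  have hinj : Function.Injective R := by
    intro i j hij
    by_contra hne
    have := exPos_sep n i j hne
    rw [← hR, hij, sub_self, norm_zero] at this
    have h0 : (0 : ℝ) < 2 * ((n + 1 : ℕ) : ℝ) + 3 := by positivity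
    linarith
  have hR0 : R 0 = 0 := by
    rw [hR]; unfold exPos; simp
  have hco : Coercive A γ C p z R μ K₀ := by
    refine hcoer _ z R K₀ fun ψ G h => ?_
    have h1 := hstrong p ψ G h (R 0)
    have h2 := hweak (n + 1) R (exPos_sep n) p ψ G h
    have hatt : ∀ j, 0 ≤ ∫ x, ψ x ^ 2 / ‖x - R j‖ := fun j =>
      integral_nonneg fun x => by positivity
    rw [hsum]
    rw [Fin.sum_univ_succ, mul_add] at h2
    have hD := coulomb_nonneg ψ
    have h3 := mul_nonneg hε.le (hatt 0)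
    nlinarith [mul_nonneg hμ.le hD]
  refine ⟨n + 1, z, R, hzpos, hinj, fun lam hmin => ?_⟩
  set U := nuclearRepulsion z R with hU
  have hlow : ∀ l, ∀ e ∈ energies A γ C p z R l, U + μ * l - K₀ ≤ e := by
    rintro l e ⟨ψ, G, h, hm, rfl⟩
    have h1 := hco ψ G h
    have hK : 0 ≤ ∫ x, ‖G x‖ ^ 2 := integral_nonneg fun x => by positivity
    have hD := coulomb_nonneg ψ
    rw [hm] at h1
    nlinarith [mul_nonneg hμ.le hK, mul_nonneg hμ.le hD]
  have hE0 : groundEnergy A γ C p z R 0 ≤ U :=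
    csInf_le ⟨_, hlow 0⟩ ⟨_, _, zero_admissible p, by simp, (energy_zero hp).symm⟩
  have hE0' : U ≤ groundEnergy A γ C p z R 0 := by
    obtain ⟨C₂, -, hge⟩ := energy_ge_mass (R := R) hA hγ hC hp fun j => (hzpos j).le
    refine le_csInf (energies_nonempty A γ C p z R le_rfl) ?_
    rintro e ⟨ψ, G, h, hm, rfl⟩
    have := hge ψ G h
    rw [hm] at this
    linarith
  have hElam : U + μ * lam - K₀ ≤ groundEnergy A γ C p z R lam :=
    le_csInf (energies_nonempty A γ C p z R hmin.1) (hlow lam)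
  constructor
  · refine lt_of_le_of_ne hmin.1 fun h0 => ?_
    subst h0
    -- the trial function has energy less than `U`
    have h1 := hmin.2 (∫ x : E3, cut x ^ 2) cut_integral_pos.le
    have h2 : groundEnergy A γ C p z R (∫ x : E3, cut x ^ 2) ≤
        energy A γ C p z R cut (gradient cut) :=
      csInf_le ⟨_, hlow _⟩ ⟨_, _, cut_admissible p, rfl, rfl⟩
    have h3 : energy A γ C p z R cut (gradient cut) < U := by
      unfold energy
      rw [potential_eq (cut_admissible p), hsum, hR0, ← ha₁]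
      have h4 : 0 ≤ ∑ j : Fin n, ∫ x, cut x ^ 2 / ‖x - R j.succ‖ :=
        Finset.sum_nonneg fun j _ => integral_nonneg fun x => by positivity
      have h5 := mul_nonneg hε.le h4
      rw [← hU]
      linarith
    linarith
  · have h1 := hmin.2 0 le_rfl
    have h2 : μ * lam ≤ K₀ := by linarith
    have h3 : lam ≤ K₀ / μ := by rw [le_div_iff₀ hμ]; linarith
    rw [hZ]
    linarith

end Pool.Agent.H51.Tfdw
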