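import Pool.Agent.H51.Tfdw.Key

set_option autoImplicit false

open MeasureTheory Filter Topology Metric
open scoped ENNReal NNReal

namespace Pool.Agent.H51.Tfdw

/-- The kernel `|x|^{-1}` in extended nonnegative form. -/
noncomputable def ker (x : E3) : ℝ≥0∞ := ENNReal.ofReal (‖x‖⁻¹)

lemma ker_measurable : Measurable ker :=
  ENNReal.measurable_ofReal.comp (measurable_norm.inv)

lemma lintegral_ker_lt_top : ∫⁻ x in ball (0 : E3) 1, ker x ^ (3 / 2 : ℝ) < ∞ := by
  have h1 : IntegrableOn (fun x : E3 => ‖x‖ ^ (-(3 / 2) : ℝ)) (ball 0 1) := by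
    rw [integrableOn_fun_norm_addHaar (μ := (volume : Measure E3))
      (f := fun y : ℝ => y ^ (-(3 / 2) : ℝ))]
    have h2 : IntegrableOn (fun y : ℝ => y ^ (1 / 2 : ℝ)) (Set.Ioo 0 1) := by
      rw [intervalIntegral.integrableOn_Ioo_rpow_iff one_pos]; norm_num
    refine h2.congr_fun ?_ measurableSet_Ioo
    intro y hy
    simp only [smul_eq_mul]
    have hdim : Module.finrank ℝ E3 - 1 = 2 := by simp
    rw [hdim, ← Real.rpow_natCast, ← Real.rpow_add hy.1]
    norm_num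
  have h3 := h1.2
  rw [hasFiniteIntegral_iff_ofReal] at h3
  · refine lt_of_le_of_lt (lintegral_mono fun x => ?_) h3
    unfold ker
    rw [ENNReal.ofReal_rpow_of_nonneg (by positivity) (by norm_num),
      Real.inv_rpow (norm_nonneg _), ← Real.rpow_neg (norm_nonneg _)]
  · exact Eventually.of_forall fun x => Real.rpow_nonneg (norm_nonneg _) _

lemma tendsto_lintegral_ker : Tendsto
    (fun n : ℕ => ∫⁻ x in closedBall (0 : E3) (1 / (n + 2)), ker x ^ (3 / 2 : ℝ)) atTop (𝓝 0) := by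
  set μ := (volume : Measure E3).restrict (ball 0 1) with hμ
  have h1 : Tendsto (fun n : ℕ => μ (closedBall (0 : E3) (1 / (n + 2)))) atTop (𝓝 0) := by
    have h2 : Tendsto (fun n : ℕ => ENNReal.ofReal ((1 / ((n : ℝ) + 2)) ^ 3) * vB) atTop
        (𝓝 (ENNReal.ofReal (0 ^ 3) * vB)) := by
      refine ENNReal.Tendsto.mul_const ?_ (Or.inr vB_top)
      refine (ENNReal.continuous_ofReal.tendsto _).comp ?_
      refine Tendsto.pow ?_ 3
      have : Tendsto (fun n : ℕ => (n : ℝ) + 2) atTop atTop :=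
        tendsto_atTop_add_const_right _ _ tendsto_natCast_atTop_atTop
      have h4 : Tendsto (fun n : ℕ => ((n : ℝ) + 2)⁻¹) atTop (𝓝 0) := this.inv_tendsto_atTop
      simpa using h4
    simp only [ne_eq, OfNat.ofNat_ne_zero, not_false_eq_true, zero_pow, ENNReal.ofReal_zero,
      zero_mul] at h2
    refine tendsto_of_tendsto_of_tendsto_of_le_of_le tendsto_const_nhds h2
      (fun _ => zero_le) (fun n => ?_)
    refine (Measure.restrict_apply_le _ _).trans ?_
    rw [vol_closedBall _ (by positivity)]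
  have h3 := tendsto_setLIntegral_zero (μ := μ) (f := fun x => ker x ^ (3 / 2 : ℝ))
    (by exact lintegral_ker_lt_top.ne) h1
  refine h3.congr fun n => ?_
  rw [hμ, Measure.restrict_restrict measurableSet_closedBall]
  congr 1
  rw [Set.inter_eq_left.2]
  refine closedBall_subset_ball ?_
  rw [div_lt_one (by positivity)]
  have : (0 : ℝ) ≤ n := by positivity
  linarith

/-- The attraction by a nucleus at `a`, close to the nucleus. -/
theorem near_bound {κ : ℝ≥0} (hκ : 0 < κ) : ∃ s : ℝ, 0 < s ∧ s ≤ 1 / 2 ∧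
    ∀ (ψ : E3 → ℝ) (G : E3 → E3), LocallyIntegrable ψ → LocallyIntegrable G →
    IsWeakGradient ψ G → ∀ a : E3,
    ∫⁻ x in closedBall a s, ‖ψ x‖ₑ ^ 2 * ker (x - a) ≤ κ * locN ψ G a := by
  obtain ⟨S, hS⟩ := local_sobolev
  have h1 : Tendsto (fun n : ℕ => (S : ℝ≥0∞) ^ (1 / 3 : ℝ) *
      (∫⁻ x in closedBall (0 : E3) (1 / (n + 2)), ker x ^ (3 / 2 : ℝ)) ^ (2 / 3 : ℝ)) atTop
      (𝓝 ((S : ℝ≥0∞) ^ (1 / 3 : ℝ) * 0 ^ (2 / 3 : ℝ))) := by
    refine ENNReal.Tendsto.const_mul ?_ (Or.inr ?_)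
    · exact (ENNReal.continuous_rpow_const.tendsto _).comp tendsto_lintegral_ker
    · exact ENNReal.rpow_ne_top_of_nonneg (by norm_num) (by simp)
  rw [ENNReal.zero_rpow_of_pos (by norm_num), mul_zero] at h1
  obtain ⟨n, hn⟩ := (h1.eventually (gt_mem_nhds (show (0 : ℝ≥0∞) < κ by exact_mod_cast hκ))).exists
  refine ⟨1 / (n + 2), by positivity, ?_, fun ψ G hψ hG h a => ?_⟩
  · apply one_div_le_one_div_of_le (by norm_num)
    have : (0 : ℝ) ≤ n := by positivity
    linarith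
  set s : ℝ := 1 / (n + 2) with hs
  have hs2 : s ≤ 1 / 2 := by
    apply one_div_le_one_div_of_le (by norm_num)
    have : (0 : ℝ) ≤ n := by positivity
    linarith
  have hψm : AEMeasurable (fun x => ‖ψ x‖ₑ) := hψ.aestronglyMeasurable.enorm
  have hwm : AEMeasurable (fun x => ‖cutAt a x * ψ x‖ₑ) := by
    simp_rw [enorm_mul]
    exact ((cutAt_contDiff a).continuous.enorm.measurable.aemeasurable).mul hψm
  have hkm : Measurable (fun x : E3 => ker (x - a)) :=
    ker_measurable.comp (measurable_id.sub measurable_const)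
  have hconj : (3 : ℝ).HolderConjugate (3 / 2) := by
    rw [Real.holderConjugate_iff]; norm_num
  calc ∫⁻ x in closedBall a s, ‖ψ x‖ₑ ^ 2 * ker (x - a)
      = ∫⁻ x in closedBall a s, ‖cutAt a x * ψ x‖ₑ ^ 2 * ker (x - a) := by
        refine setLIntegral_congr_fun measurableSet_closedBall fun x hx => ?_
        rw [mem_closedBall, dist_eq_norm] at hx
        rw [cutAt_eq_one (hx.trans hs2), one_mul]
    _ ≤ (∫⁻ x in closedBall a s, (‖cutAt a x * ψ x‖ₑ ^ 2) ^ (3 : ℝ)) ^ (1 / (3 : ℝ)) *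
        (∫⁻ x in closedBall a s, ker (x - a) ^ (3 / 2 : ℝ)) ^ (1 / (3 / 2 : ℝ)) :=
        ENNReal.lintegral_mul_le_Lp_mul_Lq _ hconj (hwm.pow_const 2).restrict
          hkm.aemeasurable
    _ ≤ (S * (locN ψ G a) ^ 3) ^ (1 / 3 : ℝ) *
        (∫⁻ x in closedBall (0 : E3) s, ker x ^ (3 / 2 : ℝ)) ^ (2 / 3 : ℝ) := by
        have i1 : ∫⁻ x in closedBall a s, (‖cutAt a x * ψ x‖ₑ ^ 2) ^ (3 : ℝ) ≤
            S * (locN ψ G a) ^ 3 := by
          refine (setLIntegral_le_lintegral _ _).trans ?_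
          refine le_trans (le_of_eq ?_) (hS ψ G hψ hG h a)
          refine lintegral_congr fun x => ?_
          rw [← ENNReal.rpow_natCast, ← ENNReal.rpow_natCast, ← ENNReal.rpow_mul]
          norm_num
        have i2 : ∫⁻ x in closedBall a s, ker (x - a) ^ (3 / 2 : ℝ) =
            ∫⁻ x in closedBall (0 : E3) s, ker x ^ (3 / 2 : ℝ) := by
          rw [← lintegral_indicator measurableSet_closedBall,
            ← lintegral_indicator measurableSet_closedBall,
            ← lintegral_sub_right_eq_self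
              ((closedBall (0 : E3) s).indicator fun x => ker x ^ (3 / 2 : ℝ)) a]
          refine lintegral_congr fun x => ?_
          by_cases hx : x ∈ closedBall a s
          · have hx' : x - a ∈ closedBall (0 : E3) s := by
              rw [mem_closedBall, dist_eq_norm] at hx ⊢; simpa using hx
            rw [Set.indicator_of_mem hx, Set.indicator_of_mem hx']
          · have hx' : x - a ∉ closedBall (0 : E3) s := by
              rw [mem_closedBall, dist_eq_norm] at hx ⊢; simpa using hx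
            rw [Set.indicator_of_notMem hx, Set.indicator_of_notMem hx']
        rw [i2, show (1 / (3 / 2 : ℝ)) = 2 / 3 by norm_num]
        gcongr
    _ = ((S : ℝ≥0∞) ^ (1 / 3 : ℝ) *
        (∫⁻ x in closedBall (0 : E3) s, ker x ^ (3 / 2 : ℝ)) ^ (2 / 3 : ℝ)) * locN ψ G a := by
        rw [ENNReal.mul_rpow_of_nonneg _ _ (by norm_num), ← ENNReal.rpow_natCast,
          ← ENNReal.rpow_mul]
        norm_num
        ring
    _ ≤ κ * locN ψ G a := by
        gcongr

lemma locN_le {ψ : E3 → ℝ} {G : E3 → E3} (hG : LocallyIntegrable G) (a : E3) :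
    locN ψ G a ≤ (∫⁻ x, ‖G x‖ₑ ^ 2) + ∫⁻ x, ‖ψ x‖ₑ ^ 2 := by
  unfold locN
  rw [← lintegral_add_left' (hG.aestronglyMeasurable.enorm.pow_const 2)]
  exact setLIntegral_le_lintegral _ _

/-- Splitting the attraction into the part close to the nucleus and the rest. -/
lemma attraction_le {ψ : E3 → ℝ} {s : ℝ} (hs : 0 < s) (a : E3) :
    ∫⁻ x, ‖ψ x‖ₑ ^ 2 * ker (x - a) ≤ (∫⁻ x in closedBall a s, ‖ψ x‖ₑ ^ 2 * ker (x - a)) +
      ENNReal.ofReal s⁻¹ * ∫⁻ x, ‖ψ x‖ₑ ^ 2 := by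
  rw [← lintegral_add_compl _ (measurableSet_closedBall (x := a) (ε := s))]
  gcongr
  rw [← lintegral_const_mul' _ _ (by simp)]
  refine le_trans ?_ (setLIntegral_le_lintegral (closedBall a s)ᶜ _)
  refine setLIntegral_mono' measurableSet_closedBall.compl fun x hx => ?_
  rw [mul_comm]
  gcongr
  unfold ker
  apply ENNReal.ofReal_le_ofReal
  have : s < ‖x - a‖ := by
    rw [Set.mem_compl_iff, mem_closedBall, dist_eq_norm, not_le] at hx; exact hx
  exact inv_anti₀ hs this.le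

/-- The attraction by a single nucleus is controlled by the `H¹` norm. -/
theorem attraction_bound : ∃ C : ℝ≥0, ∀ (ψ : E3 → ℝ) (G : E3 → E3), LocallyIntegrable ψ →
    LocallyIntegrable G → IsWeakGradient ψ G → ∀ a : E3,
    ∫⁻ x, ‖ψ x‖ₑ ^ 2 * ker (x - a) ≤ C * ((∫⁻ x, ‖G x‖ₑ ^ 2) + ∫⁻ x, ‖ψ x‖ₑ ^ 2) := by
  obtain ⟨s, hs, hs2, h⟩ := near_bound (κ := 1) one_pos
  refine ⟨1 + Real.toNNReal s⁻¹, fun ψ G hψ hG hw a => ?_⟩
  refine (attraction_le hs a).trans ?_
  have h1 := h ψ G hψ hG hw a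
  have h2 := locN_le (ψ := ψ) hG a
  calc (∫⁻ x in closedBall a s, ‖ψ x‖ₑ ^ 2 * ker (x - a)) +
        ENNReal.ofReal s⁻¹ * ∫⁻ x, ‖ψ x‖ₑ ^ 2
      ≤ (1 : ℝ≥0) * ((∫⁻ x, ‖G x‖ₑ ^ 2) + ∫⁻ x, ‖ψ x‖ₑ ^ 2) +
        ENNReal.ofReal s⁻¹ * ((∫⁻ x, ‖G x‖ₑ ^ 2) + ∫⁻ x, ‖ψ x‖ₑ ^ 2) := by
        refine add_le_add (h1.trans ?_) ?_
        · gcongr
        · gcongr
          exact le_add_self
    _ = _ := by
        rw [ENNReal.coe_add, add_mul]
        rfl

end Pool.Agent.H51.Tfdw
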