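import Pool.Agent.H51.Tfdw.Bounds

set_option autoImplicit false

open MeasureTheory Filter Topology Metric
open scoped ENNReal NNReal

namespace Pool.Agent.H51.Tfdw

/-- A smooth nonnegative compactly supported function is admissible. -/
lemma admissible_of_smooth {p : ℝ} {χ : E3 → ℝ} (hχ : ContDiff ℝ (⊤ : ℕ∞) χ)
    (hc : HasCompactSupport χ) (h0 : ∀ x, 0 ≤ χ x) : Admissible p χ (gradient χ) := by
  have hgc : Continuous (gradient χ) := by
    have : Continuous (fun x => fderiv ℝ χ x) := hχ.continuous_fderiv (by simp)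
    exact (LinearIsometryEquiv.continuous _).comp this
  have hgcs : HasCompactSupport (gradient χ) :=
    (hc.fderiv ℝ).comp_left (g := fun f => (InnerProductSpace.toDual ℝ E3).symm f) (by simp)
  refine ⟨h0, hχ.continuous.memLp_of_hasCompactSupport hc,
    hχ.continuous.memLp_of_hasCompactSupport hc, hgc.memLp_of_hasCompactSupport hgcs, ?_⟩
  intro φ hφ hφc v
  have i1 : Integrable (fun x => χ x * fderiv ℝ φ x v) :=
    (hχ.continuous.mul ((hφ.continuous_fderiv (by simp)).clm_apply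
      continuous_const)).integrable_of_hasCompactSupport hc.mul_right
  have i2 : Integrable (fun x => fderiv ℝ χ x v * φ x) :=
    (((hχ.continuous_fderiv (by simp)).clm_apply continuous_const).mul
      hφ.continuous).integrable_of_hasCompactSupport hφc.mul_left
  have i3 : Integrable (fun x => χ x * φ x) :=
    (hχ.continuous.mul hφ.continuous).integrable_of_hasCompactSupport hc.mul_right
  have := integral_mul_fderiv_eq_neg_fderiv_mul_of_integrable (v := v) i2 i1 i3
    (fun x _ => hχ.differentiable (by simp) x) (fun x _ => hφ.differentiable (by simp) x)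
  rw [this]
  congr 1
  refine integral_congr_ae (Eventually.of_forall fun x => ?_)
  simp only
  rw [gradient, InnerProductSpace.toDual_symm_apply]

lemma energies_nonempty (A γ C p : ℝ) {k : ℕ} (z : Fin k → ℝ) (R : Fin k → E3) {lam : ℝ}
    (hlam : 0 ≤ lam) : (energies A γ C p z R lam).Nonempty := by
  set m0 : ℝ := ∫ x, cut x ^ 2 with hm0
  have hcont : Continuous (cut : E3 → ℝ) := cut.continuous
  have hm0pos : 0 < m0 := by
    have hc : Continuous (fun x : E3 => cut x ^ 2) := hcont.pow 2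
    refine hc.integral_pos_of_hasCompactSupport_nonneg_nonzero ?_ (fun x => by positivity)
      (x := 0) ?_
    · exact cut.hasCompactSupport.comp_left (g := fun t : ℝ => t ^ 2) (by simp)
    · have : (cut : E3 → ℝ) 0 = 1 := cut.one_of_mem_closedBall (by simp [cut])
      simp [this]
  have hadm : Admissible p (fun x => Real.sqrt (lam / m0) * cut x)
      (gradient (fun x => Real.sqrt (lam / m0) * cut x)) := by
    refine admissible_of_smooth ?_ ?_ ?_
    · exact contDiff_const.mul cut.contDiff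
    · exact cut.hasCompactSupport.comp_left (g := fun t : ℝ => Real.sqrt (lam / m0) * t) (by simp)
    · intro x
      exact mul_nonneg (Real.sqrt_nonneg _) cut.nonneg
  refine ⟨_, _, _, hadm, ?_, rfl⟩
  have e : ∀ x : E3, (Real.sqrt (lam / m0) * cut x) ^ 2 = lam / m0 * cut x ^ 2 := by
    intro x
    rw [mul_pow, Real.sq_sqrt (by positivity)]
  simp_rw [e]
  rw [integral_const_mul, ← hm0]
  field_simp

/-- Lower bound for the energy when the total charge is small. -/
theorem energy_lower {A γ C p : ℝ} (hA : 0 < A) (hγ : 0 < γ) (hC : 0 < C) (hp : 4 / 3 < p) :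
    ∃ c Z₀ : ℝ, 0 < c ∧ 0 < Z₀ ∧ ∀ (k : ℕ) (z : Fin k → ℝ) (R : Fin k → E3), (∀ j, 0 < z j) →
      ∑ j, z j ≤ Z₀ → ∀ (ψ : E3 → ℝ) (G : E3 → E3), Admissible p ψ G →
      nuclearRepulsion z R + c * ∫ x, ψ x ^ 2 ≤ energy A γ C p z R ψ G := by
  obtain ⟨c, hc, hcoer⟩ := coercivity hA hγ hC hp
  obtain ⟨B, hB0, hB⟩ := attraction_real
  set M : ℝ := min (c / 2) (A / 2) with hM
  have hM0 : 0 < M := by positivity
  refine ⟨c / 2, M / (B + 1), by positivity, by positivity, fun k z R hz hZ ψ G h => ?_⟩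
  have h1 := hcoer ψ G h
  have h2 : ∫ x, nuclearPotential z R x * ψ x ^ 2 ≤
      M * ((∫ x, ‖G x‖ ^ 2) + ∫ x, ψ x ^ 2) := by
    rw [potential_eq h]
    have hK : 0 ≤ ∫ x, ‖G x‖ ^ 2 := integral_nonneg fun x => by positivity
    have hm : 0 ≤ ∫ x, ψ x ^ 2 := integral_nonneg fun x => by positivity
    calc ∑ j, z j * ∫ x, ψ x ^ 2 / ‖x - R j‖
        ≤ ∑ j, z j * (B * ((∫ x, ‖G x‖ ^ 2) + ∫ x, ψ x ^ 2)) := by
          refine Finset.sum_le_sum fun j _ => ?_
          exact mul_le_mul_of_nonneg_left (hB p ψ G h (R j)) (hz j).le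
      _ = (∑ j, z j) * (B * ((∫ x, ‖G x‖ ^ 2) + ∫ x, ψ x ^ 2)) := by rw [Finset.sum_mul]
      _ ≤ M / (B + 1) * (B * ((∫ x, ‖G x‖ ^ 2) + ∫ x, ψ x ^ 2)) := by gcongr
      _ = M * (B / (B + 1)) * ((∫ x, ‖G x‖ ^ 2) + ∫ x, ψ x ^ 2) := by ring
      _ ≤ M * 1 * ((∫ x, ‖G x‖ ^ 2) + ∫ x, ψ x ^ 2) := by
          gcongr
          rw [div_le_one (by positivity)]; linarith
      _ = _ := by ring
  have hK : 0 ≤ ∫ x, ‖G x‖ ^ 2 := integral_nonneg fun x => by positivity
  have hm : 0 ≤ ∫ x, ψ x ^ 2 := integral_nonneg fun x => by positivity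
  have hD := coulomb_nonneg ψ
  have h3 : M * ((∫ x, ‖G x‖ ^ 2) + ∫ x, ψ x ^ 2) ≤
      A / 2 * (∫ x, ‖G x‖ ^ 2) + c / 2 * ∫ x, ψ x ^ 2 := by
    rw [mul_add]
    exact add_le_add (mul_le_mul_of_nonneg_right (min_le_right _ _) hK)
      (mul_le_mul_of_nonneg_right (min_le_left _ _) hm)
  unfold energy
  linarith

theorem smallCharge {A γ C p : ℝ} (hA : 0 < A) (hγ : 0 < γ) (hC : 0 < C) (hp : 4 / 3 < p) :
    ∃ Z₀ : ℝ, 0 < Z₀ ∧ ∀ (k : ℕ) (z : Fin k → ℝ) (R : Fin k → E3), (∀ j, 0 < z j) →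
      ∑ j, z j ≤ Z₀ →
      (∀ lam, 0 ≤ lam → (energies A γ C p z R lam).Nonempty ∧
        BddBelow (energies A γ C p z R lam)) ∧
      ∀ lam, IsAbsMinPoint A γ C p z R lam ↔ lam = 0 := by
  obtain ⟨c, Z₀, hc, hZ₀, h⟩ := energy_lower hA hγ hC hp
  refine ⟨Z₀, hZ₀, fun k z R hz hZ => ?_⟩
  have hlow : ∀ lam, ∀ e ∈ energies A γ C p z R lam, nuclearRepulsion z R + c * lam ≤ e := by
    rintro lam e ⟨ψ, G, hadm, hm, rfl⟩
    rw [← hm]
    exact h k z R hz hZ ψ G hadm
  have hge : ∀ lam, 0 ≤ lam → nuclearRepulsion z R + c * lam ≤ groundEnergy A γ C p z R lam :=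
    fun lam hl => le_csInf (energies_nonempty A γ C p z R hl) (hlow lam)
  have h0 : groundEnergy A γ C p z R 0 ≤ nuclearRepulsion z R := by
    refine csInf_le ⟨_, hlow 0⟩ ?_
    have hadm : Admissible p (fun _ : E3 => (0 : ℝ)) (fun _ => 0) := by
      refine ⟨fun _ => le_rfl, MemLp.zero, MemLp.zero, MemLp.zero, ?_⟩
      intro φ _ _ v
      simp
    refine ⟨_, _, hadm, by simp, ?_⟩
    unfold energy Jalpha Jfun coulomb
    have : (0 : ℝ) ^ p = 0 := Real.zero_rpow (by linarith)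
    simp [this]
  refine ⟨fun lam hl => ⟨energies_nonempty A γ C p z R hl, ⟨_, hlow lam⟩⟩, fun lam => ⟨?_, ?_⟩⟩
  · rintro ⟨hl, hmin⟩
    have h1 := hge lam hl
    have h2 := hmin 0 le_rfl
    have h3 : c * lam ≤ 0 := by linarith
    nlinarith
  · rintro rfl
    refine ⟨le_rfl, fun μ hμ => ?_⟩
    have := hge μ hμ
    nlinarith [mul_nonneg hc.le hμ]

end Pool.Agent.H51.Tfdw
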