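import Pool.Agent.H51.Tfdw.Defs

set_option autoImplicit false

open MeasureTheory Filter Topology
open scoped ContDiff ENNReal NNReal Convolution

namespace Pool.Agent.H51.Tfdw

/-- A sequence of mollifiers. -/
noncomputable def moll (n : ℕ) : ContDiffBump (0 : E3) where
  rIn := 1 / (n + 1)
  rOut := 2 * (1 / (n + 1))
  rIn_pos := by positivity
  rIn_lt_rOut := by
    have : (0 : ℝ) < 1 / (n + 1) := by positivity
    linarith

/-- The kernel of the mollifier. -/
noncomputable def mk (n : ℕ) : E3 → ℝ := (moll n).normed volume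

lemma mk_nonneg (n : ℕ) (x : E3) : 0 ≤ mk n x := (moll n).nonneg_normed x

lemma mk_contDiff (n : ℕ) : ContDiff ℝ ∞ (mk n) := by
  have := (moll n).contDiff_normed (μ := (volume : Measure E3)) (n := ⊤)
  exact this

lemma mk_compact (n : ℕ) : HasCompactSupport (mk n) := (moll n).hasCompactSupport_normed

lemma mk_lintegral (n : ℕ) : ∫⁻ x, ENNReal.ofReal (mk n x) = 1 := by
  rw [← ofReal_integral_eq_lintegral_ofReal]
  · rw [mk, (moll n).integral_normed]; simp
  · exact (moll n).integrable_normed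
  · exact Eventually.of_forall (mk_nonneg n)

lemma mk_lintegral_sub (n : ℕ) (x : E3) : ∫⁻ y, ENNReal.ofReal (mk n (x - y)) = 1 := by
  rw [lintegral_sub_left_eq_self (fun y => ENNReal.ofReal (mk n y)) x]
  exact mk_lintegral n

/-- the mollified function -/
noncomputable def mollify (n : ℕ) (u : E3 → ℝ) : E3 → ℝ :=
  (mk n) ⋆[ContinuousLinearMap.lsmul ℝ ℝ, volume] u

lemma mollify_contDiff (n : ℕ) {u : E3 → ℝ} (hu : LocallyIntegrable u) :
    ContDiff ℝ 1 (mollify n u) := by
  apply HasCompactSupport.contDiff_convolution_left (n := 1)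
  · exact mk_compact n
  · exact (mk_contDiff n).of_le (by exact_mod_cast le_top)
  · exact hu

lemma mollify_fderiv (n : ℕ) {u : E3 → ℝ} {G : E3 → E3} (hu : LocallyIntegrable u)
    (h : IsWeakGradient u G) (x v : E3) :
    fderiv ℝ (mollify n u) x v = ∫ y, inner ℝ (G y) v * mk n (x - y) := by
  have h1 := (mk_compact n).hasFDerivAt_convolution_left (ContinuousLinearMap.lsmul ℝ ℝ)
    ((mk_contDiff n).of_le (by exact_mod_cast le_top)) hu x (μ := volume)
  have h2 : fderiv ℝ (mollify n u) x =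
    (fderiv ℝ (mk n) ⋆[(ContinuousLinearMap.lsmul ℝ ℝ).precompL E3, volume] u) x := h1.fderiv
  have hcs : HasCompactSupport (fderiv ℝ (mk n)) := (mk_compact n).fderiv ℝ
  have hexist : ConvolutionExistsAt (fderiv ℝ (mk n)) u x
      ((ContinuousLinearMap.lsmul ℝ ℝ).precompL E3) volume :=
    hcs.convolutionExists_left _ ((mk_contDiff n).continuous_fderiv (by simp)) hu x
  rw [h2, convolution_def, ContinuousLinearMap.integral_apply hexist]
  have h3 : ∀ t : E3, ((((ContinuousLinearMap.lsmul ℝ ℝ : ℝ →L[ℝ] ℝ →L[ℝ] ℝ).precompL E3)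
      (fderiv ℝ (mk n) t)) (u (x - t))) v = fderiv ℝ (mk n) t v * u (x - t) := by
    intro t
    simp [ContinuousLinearMap.precompL_apply]
  simp_rw [h3]
  -- change variables
  rw [← integral_sub_left_eq_self (fun t => fderiv ℝ (mk n) t v * u (x - t)) volume x]
  have h4 := h (fun y => mk n (x - y)) ((mk_contDiff n).comp (contDiff_const.sub contDiff_id))
    ((mk_compact n).comp_homeomorph (Homeomorph.subLeft x)) v
  have h5 : ∀ y, fderiv ℝ (fun y => mk n (x - y)) y v = - fderiv ℝ (mk n) (x - y) v := by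
    intro y
    have hd : HasFDerivAt (fun y : E3 => x - y) (-ContinuousLinearMap.id ℝ E3) y := by
      simpa using (hasFDerivAt_id y).const_sub x
    have := (((mk_contDiff n).differentiable (by simp)) (x - y)).hasFDerivAt.comp y hd
    rw [show (fun y => mk n (x - y)) = (mk n) ∘ (fun y => x - y) from rfl, this.fderiv]
    simp
  simp_rw [h5] at h4
  have h6 : ∀ y, fderiv ℝ (mk n) (x - y) v * u (x - (x - y)) =
      - (u y * - fderiv ℝ (mk n) (x - y) v) := by
    intro y
    rw [sub_sub_cancel]; ring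
  simp_rw [h6]
  rw [integral_neg, h4, neg_neg]

/-- Jensen: the square of the average is at most the average of the squares. -/
lemma sq_lintegral_mk_mul_le (n : ℕ) {g : E3 → ℝ≥0∞} (hg : AEMeasurable g) (x : E3) :
    (∫⁻ y, ENNReal.ofReal (mk n (x - y)) * g y) ^ 2 ≤
      ∫⁻ y, ENNReal.ofReal (mk n (x - y)) * g y ^ 2 := by
  have hm : Measurable (fun y : E3 => ENNReal.ofReal (mk n (x - y))) :=
    ENNReal.measurable_ofReal.comp
      (((mk_contDiff n).continuous.comp (continuous_const.sub continuous_id)).measurable)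
  have key := ENNReal.lintegral_mul_le_Lp_mul_Lq volume Real.HolderConjugate.two_two
    (f := fun y => ENNReal.ofReal (mk n (x - y)) ^ (1 / 2 : ℝ))
    (g := fun y => ENNReal.ofReal (mk n (x - y)) ^ (1 / 2 : ℝ) * g y)
    (hm.pow_const _).aemeasurable ((hm.pow_const _).aemeasurable.mul hg)
  have e1 : ∀ y, ((fun y => ENNReal.ofReal (mk n (x - y)) ^ (1 / 2 : ℝ)) *
      (fun y => ENNReal.ofReal (mk n (x - y)) ^ (1 / 2 : ℝ) * g y)) y =
      ENNReal.ofReal (mk n (x - y)) * g y := by
    intro y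
    simp only [Pi.mul_apply]
    rw [← mul_assoc, ← ENNReal.rpow_add_of_nonneg _ _ (by norm_num) (by norm_num)]
    norm_num
  have e2 : ∀ y, (ENNReal.ofReal (mk n (x - y)) ^ (1 / 2 : ℝ)) ^ (2 : ℝ) =
      ENNReal.ofReal (mk n (x - y)) := by
    intro y
    rw [← ENNReal.rpow_mul]; norm_num
  have e3 : ∀ y, (ENNReal.ofReal (mk n (x - y)) ^ (1 / 2 : ℝ) * g y) ^ (2 : ℝ) =
      ENNReal.ofReal (mk n (x - y)) * g y ^ 2 := by
    intro y
    rw [ENNReal.mul_rpow_of_nonneg _ _ (by norm_num), e2]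
    norm_num
  simp_rw [e1, e2, e3] at key
  rw [mk_lintegral_sub, ENNReal.one_rpow, one_mul] at key
  calc (∫⁻ y, ENNReal.ofReal (mk n (x - y)) * g y) ^ 2
      ≤ ((∫⁻ y, ENNReal.ofReal (mk n (x - y)) * g y ^ 2) ^ (1 / 2 : ℝ)) ^ 2 := by gcongr
    _ = ∫⁻ y, ENNReal.ofReal (mk n (x - y)) * g y ^ 2 := by
        rw [← ENNReal.rpow_two, ← ENNReal.rpow_mul]; norm_num

lemma enorm_fderiv_mollify_le (n : ℕ) {u : E3 → ℝ} {G : E3 → E3} (hu : LocallyIntegrable u)
    (hG : LocallyIntegrable G) (h : IsWeakGradient u G) (x : E3) :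
    ‖fderiv ℝ (mollify n u) x‖ₑ ≤ ∫⁻ y, ENNReal.ofReal (mk n (x - y)) * ‖G y‖ₑ := by
  have hcs : HasCompactSupport (fun y => mk n (x - y)) :=
    (mk_compact n).comp_homeomorph (Homeomorph.subLeft x)
  have hcont : Continuous (fun y => mk n (x - y)) :=
    (mk_contDiff n).continuous.comp (continuous_const.sub continuous_id)
  have hint : Integrable (fun y => mk n (x - y) • G y) :=
    hG.integrable_smul_left_of_hasCompactSupport hcont hcs
  have hint' : Integrable (fun y => mk n (x - y) * ‖G y‖) := by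
    have := hint.norm
    refine this.congr (Eventually.of_forall fun y => ?_)
    simp [norm_smul, abs_of_nonneg (mk_nonneg n (x - y))]
  have hnn : 0 ≤ ∫ y, mk n (x - y) * ‖G y‖ :=
    integral_nonneg fun y => mul_nonneg (mk_nonneg n _) (norm_nonneg _)
  have hb : ‖fderiv ℝ (mollify n u) x‖ ≤ ∫ y, mk n (x - y) * ‖G y‖ := by
    refine ContinuousLinearMap.opNorm_le_bound _ hnn fun v => ?_
    rw [mollify_fderiv n hu h, ← integral_mul_const]
    refine norm_integral_le_of_norm_le (hint'.mul_const _) (Eventually.of_forall fun y => ?_)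
    rw [norm_mul, Real.norm_of_nonneg (mk_nonneg n _)]
    have := norm_inner_le_norm (𝕜 := ℝ) (G y) v
    nlinarith [mk_nonneg n (x - y), mul_le_mul_of_nonneg_left this (mk_nonneg n (x - y))]
  rw [← ofReal_norm]
  refine (ENNReal.ofReal_le_ofReal hb).trans ?_
  rw [ofReal_integral_eq_lintegral_ofReal hint'
    (Eventually.of_forall fun y => mul_nonneg (mk_nonneg n _) (norm_nonneg _))]
  refine lintegral_mono fun y => ?_
  rw [ENNReal.ofReal_mul (mk_nonneg n _), ofReal_norm]

lemma lintegral_fderiv_mollify_le (n : ℕ) {u : E3 → ℝ} {G : E3 → E3} (hu : LocallyIntegrable u)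
    (hG : LocallyIntegrable G) (h : IsWeakGradient u G) :
    ∫⁻ x, ‖fderiv ℝ (mollify n u) x‖ₑ ^ 2 ≤ ∫⁻ x, ‖G x‖ₑ ^ 2 := by
  have hGm : AEMeasurable (fun y => ‖G y‖ₑ) := hG.aestronglyMeasurable.enorm
  calc ∫⁻ x, ‖fderiv ℝ (mollify n u) x‖ₑ ^ 2
      ≤ ∫⁻ x, ∫⁻ y, ENNReal.ofReal (mk n (x - y)) * ‖G y‖ₑ ^ 2 := by
        refine lintegral_mono fun x => ?_
        refine le_trans ?_ (sq_lintegral_mk_mul_le n hGm x)
        gcongr
        exact enorm_fderiv_mollify_le n hu hG h x
    _ = ∫⁻ y, ∫⁻ x, ENNReal.ofReal (mk n (x - y)) * ‖G y‖ₑ ^ 2 := by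
        rw [lintegral_lintegral_swap]
        have m1 : AEMeasurable (fun z : E3 × E3 => ENNReal.ofReal (mk n (z.1 - z.2)))
            (volume.prod volume) := (ENNReal.measurable_ofReal.comp
            ((mk_contDiff n).continuous.comp
            (continuous_fst.sub continuous_snd)).measurable).aemeasurable
        have m2 : AEMeasurable (fun z : E3 × E3 => ‖G z.2‖ₑ ^ 2) (volume.prod volume) :=
          (hGm.pow_const 2).comp_snd
        exact m1.mul m2
    _ = ∫⁻ y, ‖G y‖ₑ ^ 2 := by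
        refine lintegral_congr fun y => ?_
        rw [lintegral_mul_const]
        · rw [lintegral_sub_right_eq_self (fun x => ENNReal.ofReal (mk n x)) y, mk_lintegral,
            one_mul]
        · exact ENNReal.measurable_ofReal.comp ((mk_contDiff n).continuous.comp
            (continuous_id.sub continuous_const)).measurable

lemma mollify_tendsto {u : E3 → ℝ} (hu : LocallyIntegrable u) :
    ∀ᵐ x, Tendsto (fun n => mollify n u x) atTop (𝓝 (u x)) := by
  refine ContDiffBump.ae_convolution_tendsto_right_of_locallyIntegrable (K := 2) ?_ ?_ hu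
  · have : Tendsto (fun n : ℕ => 2 * (1 / ((n : ℝ) + 1))) atTop (𝓝 (2 * 0)) :=
      tendsto_one_div_add_atTop_nhds_zero_nat.const_mul 2
    simpa [moll] using this
  · exact Eventually.of_forall fun n => le_rfl

/-- **Sobolev inequality** for compactly supported functions with a weak gradient. -/
theorem sobolev_weak : ∃ S : ℝ≥0, ∀ (u : E3 → ℝ) (G : E3 → E3), LocallyIntegrable u →
    LocallyIntegrable G → IsWeakGradient u G → HasCompactSupport u →
    ∫⁻ x, ‖u x‖ₑ ^ 6 ≤ S * (∫⁻ x, ‖G x‖ₑ ^ 2) ^ 3 := by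
  refine ⟨(eLpNormLESNormFDerivOfEqInnerConst (volume : Measure E3) ((2 : ℝ≥0) : ℝ)) ^ 6,
    fun u G hu hG h hcs => ?_⟩
  set C := eLpNormLESNormFDerivOfEqInnerConst (volume : Measure E3) ((2 : ℝ≥0) : ℝ) with hC
  have hn : ∀ n, ∫⁻ x, ‖mollify n u x‖ₑ ^ 6 ≤ (C : ℝ≥0∞) ^ 6 * (∫⁻ x, ‖G x‖ₑ ^ 2) ^ 3 := by
    intro n
    have h1 := eLpNorm_le_eLpNorm_fderiv_of_eq_inner (volume : Measure E3)
      (mollify_contDiff n hu)
      ((mk_compact n).convolution (ContinuousLinearMap.lsmul ℝ ℝ) hcs) (p := 2) (p' := 6)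
      (by norm_num) (by simp) (by simp; norm_num)
    rw [← hC] at h1
    rw [eLpNorm_eq_lintegral_rpow_enorm_toReal (by simp) (by simp),
      eLpNorm_eq_lintegral_rpow_enorm_toReal (by simp) (by simp)] at h1
    simp only [ENNReal.coe_ofNat, ENNReal.toReal_ofNat,
      ENNReal.rpow_ofNat] at h1
    have h2 := pow_le_pow_left₀ (by positivity) h1 6
    have e1 : ((∫⁻ x, ‖mollify n u x‖ₑ ^ 6) ^ (1 / 6 : ℝ)) ^ 6 = ∫⁻ x, ‖mollify n u x‖ₑ ^ 6 := by
      rw [← ENNReal.rpow_natCast, ← ENNReal.rpow_mul]; norm_num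
    have e2 : ((∫⁻ x, ‖fderiv ℝ (mollify n u) x‖ₑ ^ 2) ^ (1 / 2 : ℝ)) ^ 6 =
        (∫⁻ x, ‖fderiv ℝ (mollify n u) x‖ₑ ^ 2) ^ 3 := by
      rw [← ENNReal.rpow_natCast, ← ENNReal.rpow_mul, ← ENNReal.rpow_natCast]; norm_num
    change ((∫⁻ x, ‖mollify n u x‖ₑ ^ 6) ^ (1 / 6 : ℝ)) ^ 6 ≤ _ at h2
    rw [e1] at h2
    refine h2.trans ?_
    change ((C : ℝ≥0∞) * (∫⁻ x, ‖fderiv ℝ (mollify n u) x‖ₑ ^ 2) ^ (1 / 2 : ℝ)) ^ 6 ≤ _
    rw [mul_pow, e2]
    exact mul_le_mul_right (pow_le_pow_left₀ (by positivity)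
      (lintegral_fderiv_mollify_le n hu hG h) 3) _
  calc ∫⁻ x, ‖u x‖ₑ ^ 6
      = ∫⁻ x, liminf (fun n => ‖mollify n u x‖ₑ ^ 6) atTop := by
        refine lintegral_congr_ae ?_
        filter_upwards [mollify_tendsto hu] with x hx
        exact (((ENNReal.continuous_pow 6).tendsto _).comp
          ((continuous_enorm.tendsto _).comp hx)).liminf_eq.symm
    _ ≤ liminf (fun n => ∫⁻ x, ‖mollify n u x‖ₑ ^ 6) atTop := by
        refine lintegral_liminf_le fun n => ?_
        exact (mollify_contDiff n hu).continuous.enorm.measurable.pow_const 6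
    _ ≤ (C : ℝ≥0∞) ^ 6 * (∫⁻ x, ‖G x‖ₑ ^ 2) ^ 3 := by
        refine liminf_le_of_frequently_le' (Frequently.of_forall hn)
    _ = _ := by push_cast; rfl

/-- Product rule: multiplying by a smooth compactly supported function. -/
lemma IsWeakGradient.smul_smooth {u : E3 → ℝ} {G : E3 → E3} (hu : LocallyIntegrable u)
    (hG : LocallyIntegrable G) (h : IsWeakGradient u G) {χ : E3 → ℝ} (hχ : ContDiff ℝ ∞ χ)
    (hχc : HasCompactSupport χ) :
    IsWeakGradient (fun x => χ x * u x) (fun x => χ x • G x + u x • gradient χ x) := by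
  intro φ hφ hφc v
  have h1 := h (fun x => χ x * φ x) (hχ.mul hφ) (hχc.mul_right) v
  have hd : ∀ x, fderiv ℝ (fun x => χ x * φ x) x v =
      χ x * fderiv ℝ φ x v + φ x * fderiv ℝ χ x v := by
    intro x
    rw [fderiv_fun_mul (hχ.differentiable (by simp) x) (hφ.differentiable (by simp) x)]
    simp
  simp_rw [hd] at h1
  have hi1 : Integrable (fun x => u x * (χ x * fderiv ℝ φ x v)) := by
    have hcont : Continuous (fun x => χ x * fderiv ℝ φ x v) :=
      hχ.continuous.mul ((hφ.continuous_fderiv (by simp)).clm_apply continuous_const)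
    have := hu.integrable_smul_right_of_hasCompactSupport hcont (hχc.mul_right)
    simpa [smul_eq_mul] using this
  have hi2 : Integrable (fun x => u x * (φ x * fderiv ℝ χ x v)) := by
    have hcont : Continuous (fun x => φ x * fderiv ℝ χ x v) :=
      hφ.continuous.mul ((hχ.continuous_fderiv (by simp)).clm_apply continuous_const)
    have := hu.integrable_smul_right_of_hasCompactSupport hcont (hφc.mul_right)
    simpa [smul_eq_mul] using this
  have hi3 : Integrable (fun x => inner ℝ (G x) v * (χ x * φ x)) := by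
    have hcont : Continuous (fun x => χ x * φ x) := hχ.continuous.mul hφ.continuous
    have := Integrable.inner_const (𝕜 := ℝ)
      (hG.integrable_smul_left_of_hasCompactSupport hcont (hχc.mul_right)) v
    refine this.congr (Eventually.of_forall fun x => ?_)
    simp only [inner_smul_left]
    simp; ring
  simp only [mul_add] at h1
  rw [integral_add hi1 hi2] at h1
  have hg : ∀ x, inner ℝ (χ x • G x + u x • gradient χ x) v * φ x =
      inner ℝ (G x) v * (χ x * φ x) + u x * (φ x * fderiv ℝ χ x v) := by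
    intro x
    rw [inner_add_left, inner_smul_left, inner_smul_left]
    have : inner ℝ (gradient χ x) v = fderiv ℝ χ x v := by
      rw [gradient, InnerProductSpace.toDual_symm_apply]
    rw [this]
    simp only [conj_trivial]
    ring
  simp_rw [hg]
  rw [integral_add hi3 hi2]
  have e0 : ∀ x, χ x * u x * fderiv ℝ φ x v = u x * (χ x * fderiv ℝ φ x v) := by
    intro x; ring
  simp_rw [e0]
  linarith

end Pool.Agent.H51.Tfdw
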