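import Pool.Agent.H51.Tfdw.SmallCharge

set_option autoImplicit false

open MeasureTheory Filter Topology Metric
open scoped ENNReal NNReal

namespace Pool.Agent.H51.Tfdw

variable {p : ℝ} {ψ : E3 → ℝ} {G : E3 → E3}

lemma Admissible.lintSqOn (h : Admissible p ψ G) (s : Set E3) :
    ∫⁻ x in s, ‖ψ x‖ₑ ^ 2 = ENNReal.ofReal (∫ x in s, ψ x ^ 2) := by
  rw [ofReal_integral_eq_lintegral_ofReal h.intSq.integrableOn
    (Eventually.of_forall fun x => by positivity)]
  refine lintegral_congr fun x => ?_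
  rw [← ofReal_norm, ← ENNReal.ofReal_pow (norm_nonneg _), Real.norm_eq_abs, sq_abs]

/-- The Coulomb energy controls the square of the mass in a ball. -/
lemma Admissible.mass_sq_le (h : Admissible p ψ G) (a : E3) {r : ℝ} (hr : 0 < r) :
    (∫ x in closedBall a r, ψ x ^ 2) ^ 2 ≤
      4 * r * coulomb (fun x => ψ x ^ 2) (fun x => ψ x ^ 2) := by
  have hψm : AEMeasurable (fun x => ‖ψ x‖ₑ ^ 2) := (h.2.1.1.enorm).pow_const 2
  have h1 : ENNReal.ofReal ((2 * r)⁻¹) * (∫⁻ x in closedBall a r, ‖ψ x‖ₑ ^ 2) ^ 2 ≤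
      coulInf (fun x => ‖ψ x‖ₑ ^ 2) := by
    calc ENNReal.ofReal ((2 * r)⁻¹) * (∫⁻ x in closedBall a r, ‖ψ x‖ₑ ^ 2) ^ 2
        = ∫⁻ x in closedBall a r, ∫⁻ y in closedBall a r,
            ‖ψ x‖ₑ ^ 2 * ‖ψ y‖ₑ ^ 2 * ENNReal.ofReal ((2 * r)⁻¹) := by
          have e : ∀ x, ∫⁻ y in closedBall a r,
              ‖ψ x‖ₑ ^ 2 * ‖ψ y‖ₑ ^ 2 * ENNReal.ofReal ((2 * r)⁻¹) =
              ‖ψ x‖ₑ ^ 2 * ((∫⁻ y in closedBall a r, ‖ψ y‖ₑ ^ 2) *
                ENNReal.ofReal ((2 * r)⁻¹)) := by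
            intro x
            rw [lintegral_mul_const' _ _ (by simp), lintegral_const_mul' _ _ (by simp), mul_assoc]
          simp_rw [e]
          rw [lintegral_mul_const'' _ hψm.restrict]
          ring
      _ ≤ ∫⁻ x in closedBall a r, ∫⁻ y in closedBall a r,
            ‖ψ x‖ₑ ^ 2 * ‖ψ y‖ₑ ^ 2 * ENNReal.ofReal (‖x - y‖⁻¹) := by
          refine setLIntegral_mono' measurableSet_closedBall fun x hx => ?_
          have hne : ∀ᵐ y ∂(volume.restrict (closedBall a r)), y ≠ x := by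
            have : volume ({x} : Set E3) = 0 := measure_singleton x
            exact ae_restrict_of_ae (measure_eq_zero_iff_ae_notMem.1 this)
          refine lintegral_mono_ae ?_
          filter_upwards [hne, ae_restrict_mem measurableSet_closedBall] with y hy hyB
          gcongr
          · have : 0 < ‖x - y‖ := norm_pos_iff.2 (sub_ne_zero.2 (Ne.symm hy))
            exact this
          · rw [mem_closedBall, dist_eq_norm] at hx hyB
            calc ‖x - y‖ = ‖(x - a) - (y - a)‖ := by congr 1; abel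
              _ ≤ ‖x - a‖ + ‖y - a‖ := norm_sub_le _ _
              _ ≤ 2 * r := by linarith
      _ ≤ coulInf (fun x => ‖ψ x‖ₑ ^ 2) := by
          unfold coulInf
          refine (setLIntegral_le_lintegral _ _).trans (lintegral_mono fun x => ?_)
          exact setLIntegral_le_lintegral _ _
  have hm : 0 ≤ ∫ x in closedBall a r, ψ x ^ 2 := integral_nonneg fun x => by positivity
  have hD := coulomb_nonneg ψ
  rw [h.lintSqOn, ← h.coulomb_eq, ← ENNReal.ofReal_pow hm, ← ENNReal.ofReal_mul (by positivity),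
    ENNReal.ofReal_le_ofReal_iff (by positivity)] at h1
  have h2 := mul_le_mul_of_nonneg_left h1 (by positivity : (0 : ℝ) ≤ 2 * r)
  rw [← mul_assoc, mul_inv_cancel₀ (by positivity), one_mul] at h2
  linarith

/-- Splitting the attraction into three parts. -/
lemma attraction_split {ψ : E3 → ℝ} (hψm : AEMeasurable (fun x => ‖ψ x‖ₑ ^ 2))
    {s r : ℝ} (hs : 0 < s) (hr : 0 < r) (a : E3) :
    ∫⁻ x, ‖ψ x‖ₑ ^ 2 * ker (x - a) ≤ (∫⁻ x in closedBall a s, ‖ψ x‖ₑ ^ 2 * ker (x - a)) +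
      ENNReal.ofReal s⁻¹ * (∫⁻ x in closedBall a r, ‖ψ x‖ₑ ^ 2) +
      ENNReal.ofReal r⁻¹ * ∫⁻ x, ‖ψ x‖ₑ ^ 2 := by
  rw [← lintegral_const_mul' _ _ (by simp), ← lintegral_const_mul' _ _ (by simp)]
  rw [← lintegral_indicator measurableSet_closedBall, ← lintegral_indicator
    measurableSet_closedBall]
  have hpt : ∀ x, ‖ψ x‖ₑ ^ 2 * ker (x - a) ≤
      (closedBall a s).indicator (fun x => ‖ψ x‖ₑ ^ 2 * ker (x - a)) x +
      ((closedBall a r).indicator (fun x => ENNReal.ofReal s⁻¹ * ‖ψ x‖ₑ ^ 2) x +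
      ENNReal.ofReal r⁻¹ * ‖ψ x‖ₑ ^ 2) := by
    intro x
    by_cases h1 : x ∈ closedBall a s
    · rw [Set.indicator_of_mem h1]
      exact le_self_add
    · rw [Set.indicator_of_notMem h1, zero_add]
      by_cases h2 : x ∈ closedBall a r
      · rw [Set.indicator_of_mem h2]
        refine le_trans ?_ le_self_add
        rw [mul_comm]
        gcongr
        unfold ker
        apply ENNReal.ofReal_le_ofReal
        have : s < ‖x - a‖ := by
          rw [mem_closedBall, dist_eq_norm, not_le] at h1; exact h1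
        exact inv_anti₀ hs this.le
      · rw [Set.indicator_of_notMem h2, zero_add, mul_comm]
        gcongr
        unfold ker
        apply ENNReal.ofReal_le_ofReal
        have : r < ‖x - a‖ := by
          rw [mem_closedBall, dist_eq_norm, not_le] at h2; exact h2
        exact inv_anti₀ hr this.le
  have hkm : Measurable (fun x : E3 => ker (x - a)) :=
    ker_measurable.comp (measurable_id.sub measurable_const)
  have m1 : AEMeasurable ((closedBall a s).indicator (fun x => ‖ψ x‖ₑ ^ 2 * ker (x - a))) :=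
    (hψm.mul hkm.aemeasurable).indicator measurableSet_closedBall
  have m2 : AEMeasurable ((closedBall a r).indicator
      (fun x => ENNReal.ofReal s⁻¹ * ‖ψ x‖ₑ ^ 2)) :=
    (hψm.const_mul _).indicator measurableSet_closedBall
  refine (lintegral_mono hpt).trans ?_
  rw [lintegral_add_left' m1, lintegral_add_left' m2, add_assoc]

/-- The attraction by one nucleus of arbitrary charge. -/
theorem strong_bound {z₁ η : ℝ} (hz : 0 ≤ z₁) (hη : 0 < η) : ∃ K₀ : ℝ, 0 ≤ K₀ ∧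
    ∀ (p : ℝ) (ψ : E3 → ℝ) (G : E3 → E3), Admissible p ψ G → ∀ a : E3,
    z₁ * ∫ x, ψ x ^ 2 / ‖x - a‖ ≤ η * ((∫ x, ψ x ^ 2) + (∫ x, ‖G x‖ ^ 2) +
      coulomb (fun x => ψ x ^ 2) (fun x => ψ x ^ 2)) + K₀ := by
  obtain ⟨κ, hκ⟩ : ∃ κ : ℝ≥0, (κ : ℝ) = η / (2 * (z₁ + 1)) := ⟨⟨_, by positivity⟩, rfl⟩
  have hκ0 : 0 < (κ : ℝ) := by rw [hκ]; positivity
  obtain ⟨s, hs, -, hnear⟩ := near_bound (κ := κ) (by exact_mod_cast hκ0)
  set r : ℝ := 2 * z₁ / η + 1 with hr
  have hr0 : 0 < r := by positivity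
  refine ⟨r * (z₁ / s) ^ 2 / η, by positivity, fun p ψ G h a => ?_⟩
  have hψm : AEMeasurable (fun x => ‖ψ x‖ₑ ^ 2) := (h.2.1.1.enorm).pow_const 2
  have h1 := attraction_split hψm hs hr0 a
  have h2 := (hnear ψ G h.locInt h.locIntG h.weak a).trans
    (mul_le_mul_right (locN_le (ψ := ψ) h.locIntG a) _)
  have h3 := h1.trans (add_le_add_left (add_le_add_left h2 _) _)
  have hK : 0 ≤ ∫ x, ‖G x‖ ^ 2 := integral_nonneg fun x => by positivity
  have hm : 0 ≤ ∫ x, ψ x ^ 2 := integral_nonneg fun x => by positivity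
  have hmr : 0 ≤ ∫ x in closedBall a r, ψ x ^ 2 := integral_nonneg fun x => by positivity
  have hD := coulomb_nonneg ψ
  rw [← h.integral_attr, h.lintG, h.lintSq, h.lintSqOn, ← ENNReal.ofReal_add hK hm,
    ← ENNReal.ofReal_coe_nnreal (p := κ), ← ENNReal.ofReal_mul (by positivity),
    ← ENNReal.ofReal_mul (by positivity), ← ENNReal.ofReal_mul (by positivity),
    ← ENNReal.ofReal_add (by positivity) (by positivity),
    ← ENNReal.ofReal_add (by positivity) (by positivity),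
    ENNReal.ofReal_le_ofReal_iff (by positivity)] at h3
  have h4 := h.mass_sq_le a hr0
  set K := ∫ x, ‖G x‖ ^ 2
  set m := ∫ x, ψ x ^ 2
  set mr := ∫ x in closedBall a r, ψ x ^ 2
  set D := coulomb (fun x => ψ x ^ 2) (fun x => ψ x ^ 2)
  have e1 : z₁ * κ ≤ η / 2 := by
    rw [hκ, ← mul_div_assoc, div_le_div_iff₀ (by positivity) (by norm_num)]
    nlinarith
  have e2 : z₁ * r⁻¹ ≤ η / 2 := by
    rw [← div_eq_mul_inv, div_le_iff₀ hr0, hr]
    have : η / 2 * (2 * z₁ / η + 1) = z₁ + η / 2 := by field_simp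
    rw [this]; linarith
  have e3 : z₁ * (s⁻¹ * mr) ≤ η * D + r * (z₁ / s) ^ 2 / η := by
    have q1 : η * (mr ^ 2 / (4 * r)) ≤ η * D := by
      gcongr
      rw [div_le_iff₀ (by positivity)]; linarith
    have q2 : z₁ * (s⁻¹ * mr) ≤ η * (mr ^ 2 / (4 * r)) + r * (z₁ / s) ^ 2 / η := by
      have : η * (mr ^ 2 / (4 * r)) + r * (z₁ / s) ^ 2 / η - z₁ * (s⁻¹ * mr) =
          (η * mr - 2 * r * (z₁ / s)) ^ 2 / (4 * r * η) := by
        field_simp
        ring
      have q3 : 0 ≤ (η * mr - 2 * r * (z₁ / s)) ^ 2 / (4 * r * η) := by positivity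
      linarith
    linarith
  calc z₁ * ∫ x, ψ x ^ 2 / ‖x - a‖
      ≤ z₁ * (κ * (K + m) + s⁻¹ * mr + r⁻¹ * m) := by gcongr
    _ = (z₁ * κ) * (K + m) + z₁ * (s⁻¹ * mr) + (z₁ * r⁻¹) * m := by ring
    _ ≤ η / 2 * (K + m) + (η * D + r * (z₁ / s) ^ 2 / η) + η / 2 * m := by gcongr
    _ ≤ η * (m + K + D) + r * (z₁ / s) ^ 2 / η := by nlinarith

end Pool.Agent.H51.Tfdw
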