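import Pool.Agent.H51.Tfdw.Strong

set_option autoImplicit false

open MeasureTheory Filter Topology Metric
open scoped ENNReal NNReal

namespace Pool.Agent.H51.Tfdw

/-- Pointwise bound for the potential of well separated unit charges. -/
lemma sum_ker_le {n : ℕ} {R : Fin n → E3} {s : ℝ} (hs : 0 < s)
    (hR : ∀ i j, i ≠ j → 2 * (n : ℝ) ≤ ‖R i - R j‖) (x : E3) :
    ∑ j, ker (x - R j) ≤ (∑ j, (closedBall (R j) s).indicator (fun x => ker (x - R j)) x) +
      ENNReal.ofReal (s⁻¹ + 1) := by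
  classical
  rcases Nat.eq_zero_or_pos n with rfl | hn
  · simp
  have hne : (Finset.univ : Finset (Fin n)).Nonempty := ⟨⟨0, hn⟩, Finset.mem_univ _⟩
  obtain ⟨j₀, -, hj₀⟩ := Finset.exists_min_image Finset.univ (fun j => ‖x - R j‖) hne
  have hn0 : (0 : ℝ) < n := by exact_mod_cast hn
  have hfar : ∀ j, j ≠ j₀ → ker (x - R j) ≤ ENNReal.ofReal (n : ℝ)⁻¹ := by
    intro j hj
    have h1 := hR j j₀ hj
    have h2 : ‖R j - R j₀‖ ≤ ‖x - R j‖ + ‖x - R j₀‖ := by
      calc ‖R j - R j₀‖ = ‖(x - R j₀) - (x - R j)‖ := by congr 1; abel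
        _ ≤ ‖x - R j₀‖ + ‖x - R j‖ := norm_sub_le _ _
        _ = _ := add_comm _ _
    have h3 := hj₀ j (Finset.mem_univ _)
    unfold ker
    apply ENNReal.ofReal_le_ofReal
    exact inv_anti₀ hn0 (by linarith)
  have hnear : ker (x - R j₀) ≤ (closedBall (R j₀) s).indicator (fun x => ker (x - R j₀)) x +
      ENNReal.ofReal s⁻¹ := by
    by_cases h : x ∈ closedBall (R j₀) s
    · rw [Set.indicator_of_mem h]; exact le_self_add
    · rw [Set.indicator_of_notMem h, zero_add]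
      unfold ker
      apply ENNReal.ofReal_le_ofReal
      have : s < ‖x - R j₀‖ := by
        rw [mem_closedBall, dist_eq_norm, not_le] at h; exact h
      exact inv_anti₀ hs this.le
  rw [← Finset.add_sum_erase _ _ (Finset.mem_univ j₀)]
  have h4 : ∑ j ∈ Finset.univ.erase j₀, ker (x - R j) ≤ 1 := by
    calc ∑ j ∈ Finset.univ.erase j₀, ker (x - R j)
        ≤ ∑ j ∈ Finset.univ.erase j₀, ENNReal.ofReal (n : ℝ)⁻¹ :=
          Finset.sum_le_sum fun j hj => hfar j (Finset.ne_of_mem_erase hj)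
      _ ≤ ∑ j : Fin n, ENNReal.ofReal (n : ℝ)⁻¹ :=
          Finset.sum_le_sum_of_subset (Finset.erase_subset _ _)
      _ = ENNReal.ofReal (n * (n : ℝ)⁻¹) := by
          rw [Finset.sum_const, Finset.card_univ, Fintype.card_fin, nsmul_eq_mul,
            ENNReal.ofReal_mul hn0.le, ENNReal.ofReal_natCast]
      _ = 1 := by rw [mul_inv_cancel₀ hn0.ne']; simp
  have h5 : (closedBall (R j₀) s).indicator (fun x => ker (x - R j₀)) x ≤
      ∑ j, (closedBall (R j) s).indicator (fun x => ker (x - R j)) x :=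
    Finset.single_le_sum (f := fun j => (closedBall (R j) s).indicator (fun x => ker (x - R j)) x)
      (fun _ _ => zero_le) (Finset.mem_univ j₀)
  calc ker (x - R j₀) + ∑ j ∈ Finset.univ.erase j₀, ker (x - R j)
      ≤ ((closedBall (R j₀) s).indicator (fun x => ker (x - R j₀)) x + ENNReal.ofReal s⁻¹) + 1 :=
        add_le_add hnear h4
    _ ≤ ((∑ j, (closedBall (R j) s).indicator (fun x => ker (x - R j)) x) +
        ENNReal.ofReal s⁻¹) + 1 := by gcongr
    _ = _ := by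
        rw [add_assoc, ENNReal.ofReal_add (by positivity) zero_le_one, ENNReal.ofReal_one]

/-- The attraction by well separated weak nuclei is controlled, uniformly in their number. -/
theorem weak_bound {η : ℝ} (hη : 0 < η) : ∃ ε : ℝ, 0 < ε ∧
    ∀ (n : ℕ) (R : Fin n → E3), (∀ i j, i ≠ j → 2 * (n : ℝ) + 3 ≤ ‖R i - R j‖) →
    ∀ (p : ℝ) (ψ : E3 → ℝ) (G : E3 → E3), Admissible p ψ G →
    ε * ∑ j, ∫ x, ψ x ^ 2 / ‖x - R j‖ ≤ η * ((∫ x, ψ x ^ 2) + ∫ x, ‖G x‖ ^ 2) := by
  obtain ⟨s, hs, -, hnear⟩ := near_bound (κ := 1) one_pos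
  refine ⟨η / (s⁻¹ + 2), by positivity, fun n R hR p ψ G h => ?_⟩
  have hψm : AEMeasurable (fun x => ‖ψ x‖ₑ ^ 2) := (h.2.1.1.enorm).pow_const 2
  have hkm : ∀ a : E3, Measurable (fun x : E3 => ker (x - a)) := fun a =>
    ker_measurable.comp (measurable_id.sub measurable_const)
  have hdisj : Pairwise (Function.onFun Disjoint fun j => closedBall (R j) 1) := by
    intro i j hij
    rw [Function.onFun]
    refine closedBall_disjoint_closedBall ?_
    have := hR i j hij
    rw [dist_eq_norm]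
    have : (0 : ℝ) ≤ n := by positivity
    linarith
  have hN : ∑ j, locN ψ G (R j) ≤ (∫⁻ x, ‖G x‖ₑ ^ 2) + ∫⁻ x, ‖ψ x‖ₑ ^ 2 := by
    unfold locN
    rw [← lintegral_add_left' (h.2.2.2.1.1.enorm.pow_const 2), ← tsum_fintype (L := .unconditional _),
      ← lintegral_iUnion (fun _ => measurableSet_closedBall) hdisj]
    exact setLIntegral_le_lintegral _ _
  have h1 : ∑ j, ∫⁻ x, ‖ψ x‖ₑ ^ 2 * ker (x - R j) ≤
      ((∫⁻ x, ‖G x‖ₑ ^ 2) + ∫⁻ x, ‖ψ x‖ₑ ^ 2) +
      ENNReal.ofReal (s⁻¹ + 1) * ∫⁻ x, ‖ψ x‖ₑ ^ 2 := by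
    calc ∑ j, ∫⁻ x, ‖ψ x‖ₑ ^ 2 * ker (x - R j)
        = ∫⁻ x, ‖ψ x‖ₑ ^ 2 * ∑ j, ker (x - R j) := by
          have m0 : ∀ j ∈ (Finset.univ : Finset (Fin n)),
              AEMeasurable (fun x => ‖ψ x‖ₑ ^ 2 * ker (x - R j)) := fun j _ =>
            hψm.mul (hkm (R j)).aemeasurable
          rw [← lintegral_finsetSum' _ m0]
          refine lintegral_congr fun x => ?_
          rw [Finset.mul_sum]
      _ ≤ ∫⁻ x, ((∑ j, (closedBall (R j) s).indicator
            (fun x => ‖ψ x‖ₑ ^ 2 * ker (x - R j)) x) + ENNReal.ofReal (s⁻¹ + 1) * ‖ψ x‖ₑ ^ 2) := by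
          refine lintegral_mono fun x => ?_
          have := sum_ker_le hs (fun i j hij => by have := hR i j hij; linarith) x
          calc ‖ψ x‖ₑ ^ 2 * ∑ j, ker (x - R j)
              ≤ ‖ψ x‖ₑ ^ 2 * ((∑ j, (closedBall (R j) s).indicator (fun x => ker (x - R j)) x) +
                ENNReal.ofReal (s⁻¹ + 1)) := by gcongr
            _ = _ := by
                rw [mul_add, Finset.mul_sum, mul_comm (‖ψ x‖ₑ ^ 2) (ENNReal.ofReal _)]
                congr 1
                refine Finset.sum_congr rfl fun j _ => ?_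
                by_cases hx : x ∈ closedBall (R j) s
                · rw [Set.indicator_of_mem hx, Set.indicator_of_mem hx]
                · rw [Set.indicator_of_notMem hx, Set.indicator_of_notMem hx, mul_zero]
      _ = (∑ j, ∫⁻ x in closedBall (R j) s, ‖ψ x‖ₑ ^ 2 * ker (x - R j)) +
            ENNReal.ofReal (s⁻¹ + 1) * ∫⁻ x, ‖ψ x‖ₑ ^ 2 := by
          have m1 : ∀ j ∈ (Finset.univ : Finset (Fin n)), AEMeasurable ((closedBall (R j) s).indicator
              (fun x => ‖ψ x‖ₑ ^ 2 * ker (x - R j))) := fun j _ =>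
            (hψm.mul (hkm (R j)).aemeasurable).indicator measurableSet_closedBall
          rw [lintegral_add_left' (by
              have := Finset.aemeasurable_fun_sum Finset.univ m1
              exact this), lintegral_finsetSum' _ m1, lintegral_const_mul' _ _ (by simp)]
          congr 1
          refine Finset.sum_congr rfl fun j _ => ?_
          rw [lintegral_indicator measurableSet_closedBall]
      _ ≤ (∑ j, locN ψ G (R j)) + ENNReal.ofReal (s⁻¹ + 1) * ∫⁻ x, ‖ψ x‖ₑ ^ 2 := by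
          gcongr with j
          have := hnear ψ G h.locInt h.locIntG h.weak (R j)
          simpa using this
      _ ≤ _ := by gcongr
  have hK : 0 ≤ ∫ x, ‖G x‖ ^ 2 := integral_nonneg fun x => by positivity
  have hm : 0 ≤ ∫ x, ψ x ^ 2 := integral_nonneg fun x => by positivity
  have hatt : ∀ j, 0 ≤ ∫ x, ψ x ^ 2 / ‖x - R j‖ := fun j => integral_nonneg fun x => by positivity
  simp_rw [← h.integral_attr] at h1
  rw [← ENNReal.ofReal_sum_of_nonneg (fun j _ => hatt j), h.lintG, h.lintSq,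
    ← ENNReal.ofReal_add hK hm, ← ENNReal.ofReal_mul (by positivity),
    ← ENNReal.ofReal_add (by positivity) (by positivity),
    ENNReal.ofReal_le_ofReal_iff (by positivity)] at h1
  have hs' : 0 < s⁻¹ + 2 := by positivity
  rw [div_mul_eq_mul_div, div_le_iff₀ hs']
  have hs2 : 0 < s⁻¹ := by positivity
  have h6 : ∑ j, ∫ x, ψ x ^ 2 / ‖x - R j‖ ≤ ((∫ x, ψ x ^ 2) + ∫ x, ‖G x‖ ^ 2) * (s⁻¹ + 2) := by
    nlinarith [mul_nonneg hs2.le hK]
  calc η * ∑ j, ∫ x, ψ x ^ 2 / ‖x - R j‖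
      ≤ η * (((∫ x, ψ x ^ 2) + ∫ x, ‖G x‖ ^ 2) * (s⁻¹ + 2)) := by gcongr
    _ = _ := by ring

end Pool.Agent.H51.Tfdw
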