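import Pool.Agent.H51.Tfdw.Local

set_option autoImplicit false

open MeasureTheory Filter Topology Metric
open scoped ENNReal NNReal

namespace Pool.Agent.H51.Tfdw

lemma young_real {c ε : ℝ} (hε : 0 < ε) :
    ∃ C : ℝ, 0 ≤ C ∧ ∀ x y : ℝ, 0 ≤ x → 0 ≤ y →
      c * (x ^ (5 / 6 : ℝ) * y ^ (1 / 2 : ℝ)) ≤ ε * y + ε * x + C * x ^ 2 := by
  -- `c x^{5/6} y^{1/2} ≤ ε y + d x^{5/3}` with `d = c²/(4ε)`
  set d : ℝ := c ^ 2 / (4 * ε) with hd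
  have hd0 : 0 ≤ d := by positivity
  set κ : ℝ := (ε / (d + 1)) ^ (3 / 2 : ℝ) with hκ
  have hκ0 : 0 < κ := by positivity
  refine ⟨d * κ ^ (-(1 / 3) : ℝ), by positivity, fun x y hx hy => ?_⟩
  have h1 : c * (x ^ (5 / 6 : ℝ) * y ^ (1 / 2 : ℝ)) ≤ ε * y + d * x ^ (5 / 3 : ℝ) := by
    set s := x ^ (5 / 6 : ℝ) with hs
    set t := y ^ (1 / 2 : ℝ) with ht
    have ht2 : t ^ 2 = y := by rw [ht, ← Real.rpow_natCast, ← Real.rpow_mul hy]; norm_num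
    have hs2 : s ^ 2 = x ^ (5 / 3 : ℝ) := by
      rw [hs, ← Real.rpow_natCast, ← Real.rpow_mul hx]; norm_num
    rw [← ht2, ← hs2, hd]
    have : ε * t ^ 2 + c ^ 2 / (4 * ε) * s ^ 2 - c * (s * t) =
        (2 * ε * t - c * s) ^ 2 / (4 * ε) := by
      field_simp; ring
    have h0 : 0 ≤ (2 * ε * t - c * s) ^ 2 / (4 * ε) := by positivity
    linarith
  have h2 : d * x ^ (5 / 3 : ℝ) ≤ ε * x + d * κ ^ (-(1 / 3) : ℝ) * x ^ 2 := by
    rcases hx.eq_or_lt with rfl | hx0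
    · rw [Real.zero_rpow (by norm_num)]; simp
    rcases le_total x κ with hle | hle
    · have e1 : x ^ (5 / 3 : ℝ) = x * x ^ (2 / 3 : ℝ) := by
        nth_rewrite 2 [← Real.rpow_one x]
        rw [← Real.rpow_add hx0]; norm_num
      have e2 : x ^ (2 / 3 : ℝ) ≤ ε / (d + 1) := by
        calc x ^ (2 / 3 : ℝ) ≤ κ ^ (2 / 3 : ℝ) := Real.rpow_le_rpow hx hle (by norm_num)
          _ = ε / (d + 1) := by
            rw [hκ, ← Real.rpow_mul (by positivity)]; norm_num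
      have e3 : d * (ε / (d + 1)) ≤ ε := by
        rw [← mul_div_assoc, div_le_iff₀ (by positivity)]; nlinarith
      have e4 : 0 ≤ d * κ ^ (-(1 / 3) : ℝ) * x ^ 2 := by positivity
      calc d * x ^ (5 / 3 : ℝ) = x * (d * x ^ (2 / 3 : ℝ)) := by rw [e1]; ring
        _ ≤ x * (d * (ε / (d + 1))) := by gcongr
        _ ≤ x * ε := by gcongr
        _ ≤ _ := by linarith
    · have e1 : x ^ (5 / 3 : ℝ) = x ^ (-(1 / 3) : ℝ) * x ^ 2 := by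
        rw [← Real.rpow_natCast, ← Real.rpow_add hx0]; norm_num
      have e2 : x ^ (-(1 / 3) : ℝ) ≤ κ ^ (-(1 / 3) : ℝ) :=
        Real.rpow_le_rpow_of_nonpos hκ0 hle (by norm_num)
      calc d * x ^ (5 / 3 : ℝ) = d * x ^ (-(1 / 3) : ℝ) * x ^ 2 := by rw [e1]; ring
        _ ≤ d * κ ^ (-(1 / 3) : ℝ) * x ^ 2 := by gcongr
        _ ≤ _ := by nlinarith
  linarith

lemma young_ennreal (c : ℝ≥0) {ε : ℝ≥0} (hε : 0 < ε) :
    ∃ C : ℝ≥0, ∀ x y : ℝ≥0∞,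
      c * (x ^ (5 / 6 : ℝ) * y ^ (1 / 2 : ℝ)) ≤ ε * y + ε * x + C * x ^ 2 := by
  obtain ⟨C, hC0, hC⟩ := young_real (c := c) (ε := ε) (by exact_mod_cast hε)
  lift C to ℝ≥0 using hC0
  refine ⟨C, fun x y => ?_⟩
  have hε' : (ε : ℝ≥0∞) ≠ 0 := by exact_mod_cast hε.ne'
  by_cases hx : x = ∞
  · have : (ε : ℝ≥0∞) * y + ε * x + (C : ℝ≥0∞) * x ^ 2 = ∞ := by
      rw [hx, ENNReal.mul_top hε']; simp
    rw [this]; exact le_top
  by_cases hy : y = ∞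
  · have : (ε : ℝ≥0∞) * y + ε * x + (C : ℝ≥0∞) * x ^ 2 = ∞ := by
      rw [hy, ENNReal.mul_top hε']; simp
    rw [this]; exact le_top
  lift x to ℝ≥0 using hx
  lift y to ℝ≥0 using hy
  rw [← ENNReal.coe_rpow_of_nonneg _ (by norm_num), ← ENNReal.coe_rpow_of_nonneg _ (by norm_num)]
  have := hC x y x.2 y.2
  exact_mod_cast this

/-- Interpolation between `L²` and `L⁶`. -/
lemma interpolate {f : E3 → ℝ≥0∞} (hf : AEMeasurable f) :
    ∫⁻ x, f x ^ (8 / 3 : ℝ) ≤ (∫⁻ x, f x ^ 2) ^ (5 / 6 : ℝ) * (∫⁻ x, f x ^ 6) ^ (1 / 6 : ℝ) := by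
  have hconj : (6 / 5 : ℝ).HolderConjugate 6 := by
    rw [Real.holderConjugate_iff]; norm_num
  have key := ENNReal.lintegral_mul_le_Lp_mul_Lq volume hconj
    (f := fun x => f x ^ (5 / 3 : ℝ)) (g := f) (hf.pow_const _) hf
  have e1 : ∀ x, ((fun x => f x ^ (5 / 3 : ℝ)) * f) x = f x ^ (8 / 3 : ℝ) := by
    intro x
    simp only [Pi.mul_apply]
    nth_rewrite 2 [← ENNReal.rpow_one (f x)]
    rw [← ENNReal.rpow_add_of_nonneg _ _ (by norm_num) (by norm_num)]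
    norm_num
  have e2 : ∀ x, (f x ^ (5 / 3 : ℝ)) ^ (6 / 5 : ℝ) = f x ^ 2 := by
    intro x
    rw [← ENNReal.rpow_mul, ← ENNReal.rpow_natCast]; norm_num
  have e3 : ∀ x, f x ^ (6 : ℝ) = f x ^ 6 := by
    intro x
    rw [← ENNReal.rpow_natCast]; norm_num
  simp_rw [e1, e2, e3] at key
  convert key using 3
  norm_num

end Pool.Agent.H51.Tfdw
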